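import Mathlib

/-! Stanley depth, Stanley projective dimension and projective dimension of `S/I` for a
monomial ideal `I` of `S = K[x_1,...,x_n]`. -/

set_option autoImplicit false

namespace Pool.Agent.R716.SP

open MvPolynomial CategoryTheory

/-- The ideal of `K[x_1,...,x_n]` generated by the monomials `x^a`, `a ∈ A`.  When `A` is an
antichain for divisibility, `A` is the set of (exponents of) minimal monomial generators. -/
noncomputable def monIdeal (K : Type) [Field K] {n : ℕ} (A : Finset (Fin n →₀ ℕ)) :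
    Ideal (MvPolynomial (Fin n) K) :=
  Ideal.span ((fun a => monomial a (1 : K)) '' (A : Set (Fin n →₀ ℕ)))

/-- `x^a` is one of the monomials of the space `u K[Z]`, where `p = (u, Z)`. -/
def InSpace {n : ℕ} (p : (Fin n →₀ ℕ) × Finset (Fin n)) (a : Fin n →₀ ℕ) : Prop :=
  ∃ b : Fin n →₀ ℕ, b.support ⊆ p.2 ∧ a = p.1 + b

/-- `D` is a Stanley decomposition of `S/I`: the monomials outside `I` are the disjoint union of
the monomials of the spaces `u K[Z]`, `(u, Z) ∈ D`. -/
def IsStanleyDecomposition {K : Type} [Field K] {n : ℕ} (I : Ideal (MvPolynomial (Fin n) K))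
    (D : Finset ((Fin n →₀ ℕ) × Finset (Fin n))) : Prop :=
  (∀ p ∈ D, ∀ a, InSpace p a → monomial a (1 : K) ∉ I) ∧
  ∀ a, monomial a (1 : K) ∉ I → ∃! p, p ∈ D ∧ InSpace p a

/-- The Stanley depth of `S/I`. -/
noncomputable def sdepth {K : Type} [Field K] {n : ℕ} (I : Ideal (MvPolynomial (Fin n) K)) : ℕ :=
  sSup {d | ∃ D, IsStanleyDecomposition I D ∧ ∀ p ∈ D, d ≤ p.2.card}

/-- The Stanley projective dimension of `S/I`. -/
noncomputable def spdim {K : Type} [Field K] {n : ℕ} (I : Ideal (MvPolynomial (Fin n) K)) : ℕ :=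
  n - sdepth I

/-- The projective dimension of the `S`-module `S/I`. -/
noncomputable def pdim {K : Type} [Field K] {n : ℕ} (I : Ideal (MvPolynomial (Fin n) K)) :
    WithBot ℕ∞ :=
  projectiveDimension (ModuleCat.of (MvPolynomial (Fin n) K) (MvPolynomial (Fin n) K ⧸ I))

/-- A proper ideal: an upper bound on the Stanley depth. -/
theorem decomposition_card_le {K : Type} [Field K] {n : ℕ} {I : Ideal (MvPolynomial (Fin n) K)}
    (u : Fin n →₀ ℕ) (hu : monomial u (1 : K) ∉ I) (c : ℕ)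
    (hc : ∀ Z : Finset (Fin n), (∀ z ∈ Z, ∀ t : ℕ,
      monomial (u + Finsupp.single z t) (1 : K) ∉ I) → Z.card ≤ c)
    {d : ℕ} (hd : ∃ D, IsStanleyDecomposition I D ∧ ∀ p ∈ D, d ≤ p.2.card) : d ≤ c := by
  obtain ⟨D, hD, hcard⟩ := hd
  obtain ⟨p, ⟨hp, b, hb, hub⟩, _⟩ := hD.2 u hu
  refine (hcard p hp).trans (hc p.2 ?_)
  intro z hz t
  apply hD.1 p hp
  refine ⟨b + Finsupp.single z t, ?_, ?_⟩
  · intro j hj
    rw [Finsupp.mem_support_iff, Finsupp.add_apply] at hj
    by_cases h : j = z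
    · rw [h]; exact hz
    · rw [Finsupp.single_eq_of_ne h, add_zero] at hj
      exact hb (Finsupp.mem_support_iff.2 hj)
  · rw [hub, add_assoc]

theorem sdepth_eq {K : Type} [Field K] {n : ℕ} {I : Ideal (MvPolynomial (Fin n) K)}
    (u : Fin n →₀ ℕ) (hu : monomial u (1 : K) ∉ I) (c : ℕ)
    (hc : ∀ Z : Finset (Fin n), (∀ z ∈ Z, ∀ t : ℕ,
      monomial (u + Finsupp.single z t) (1 : K) ∉ I) → Z.card ≤ c)
    (hD : ∃ D, IsStanleyDecomposition I D ∧ ∀ p ∈ D, c ≤ p.2.card) : sdepth I = c := by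
  apply le_antisymm
  · exact csSup_le ⟨c, hD⟩ (fun d hd => decomposition_card_le u hu c hc hd)
  · exact le_csSup ⟨c, fun d hd => decomposition_card_le u hu c hc hd⟩ hD

end Pool.Agent.R716.SP
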