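import Mathlib
import Pool.Agent.R716.SP.Defs

set_option autoImplicit false

namespace Pool.Agent.R716.SP

open MvPolynomial

variable {n : ℕ} {K : Type} [Field K]

/-- the indicator exponent of a set of variables -/
noncomputable def ind (F : Finset (Fin n)) : Fin n →₀ ℕ :=
  Finsupp.equivFunOnFinite.symm (fun j => if j ∈ F then 1 else 0)

theorem ind_apply (F : Finset (Fin n)) (j : Fin n) : ind F j = if j ∈ F then 1 else 0 := rfl

theorem support_ind (F : Finset (Fin n)) : (ind F).support = F := by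
  ext j
  rw [Finsupp.mem_support_iff, ind_apply]
  by_cases h : j ∈ F <;> simp [h]

theorem ind_inj {F G : Finset (Fin n)} (h : ind F = ind G) : F = G := by
  rw [← support_ind F, h, support_ind]

theorem inSpace_iff {F G : Finset (Fin n)} (hFG : F ⊆ G) (a : Fin n →₀ ℕ) :
    InSpace (ind F, G) a ↔ F ⊆ a.support ∧ a.support ⊆ G := by
  constructor
  · rintro ⟨b, hb, rfl⟩
    constructor
    · intro j hj
      rw [Finsupp.mem_support_iff, Finsupp.add_apply, ind_apply, if_pos hj]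
      omega
    · intro j hj
      rw [Finsupp.mem_support_iff, Finsupp.add_apply, ind_apply] at hj
      by_cases h : j ∈ F
      · exact hFG h
      · rw [if_neg h, zero_add] at hj
        exact hb (Finsupp.mem_support_iff.2 hj)
  · rintro ⟨h1, h2⟩
    refine ⟨a - ind F, ?_, ?_⟩
    · intro j hj
      apply h2
      rw [Finsupp.mem_support_iff] at hj ⊢
      rw [Finsupp.tsub_apply] at hj
      omega
    · ext j
      rw [Finsupp.add_apply, Finsupp.tsub_apply, ind_apply]
      split_ifs with h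
      · have := Finsupp.mem_support_iff.1 (h1 h)
        omega
      · omega

/-- An interval partition of the squarefree monomials outside a squarefree monomial ideal gives a
Stanley decomposition. -/
theorem decomp_of_partition (I : Ideal (MvPolynomial (Fin n) K)) (P : Finset (Fin n) → Prop)
    (hI : ∀ a, monomial a (1 : K) ∉ I ↔ P a.support)
    (L : Finset (Finset (Fin n) × Finset (Fin n))) (hFG : ∀ p ∈ L, p.1 ⊆ p.2)
    (h1 : ∀ p ∈ L, ∀ s, p.1 ⊆ s → s ⊆ p.2 → P s)
    (h2 : ∀ s, P s → ∃ p ∈ L, p.1 ⊆ s ∧ s ⊆ p.2)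
    (h3 : ∀ p ∈ L, ∀ q ∈ L, ∀ s, p.1 ⊆ s → s ⊆ p.2 → q.1 ⊆ s → s ⊆ q.2 → p = q)
    (c : ℕ) (hc : ∀ p ∈ L, c ≤ p.2.card) :
    ∃ D, IsStanleyDecomposition I D ∧ ∀ p ∈ D, c ≤ p.2.card := by
  classical
  refine ⟨L.image (fun p => (ind p.1, p.2)), ⟨?_, ?_⟩, ?_⟩
  · intro p hp a ha
    obtain ⟨q, hq, rfl⟩ := Finset.mem_image.1 hp
    rw [inSpace_iff (hFG q hq)] at ha
    rw [hI]
    exact h1 q hq _ ha.1 ha.2
  · intro a ha
    rw [hI] at ha
    obtain ⟨q, hq, h4, h5⟩ := h2 _ ha
    refine ⟨(ind q.1, q.2), ⟨Finset.mem_image.2 ⟨q, hq, rfl⟩,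
      (inSpace_iff (hFG q hq) a).2 ⟨h4, h5⟩⟩, ?_⟩
    rintro p ⟨hp, hpa⟩
    obtain ⟨q', hq', rfl⟩ := Finset.mem_image.1 hp
    rw [inSpace_iff (hFG q' hq')] at hpa
    rw [h3 q' hq' q hq _ hpa.1 hpa.2 h4 h5]
  · intro p hp
    obtain ⟨q, hq, rfl⟩ := Finset.mem_image.1 hp
    exact hc q hq

/-! ### bit masks -/

/-- the mask of a set -/
def mask (s : Finset (Fin n)) : ℕ := Nat.ofBits (fun j : Fin n => decide (j ∈ s))

/-- the set of a mask -/
def unmask (n m : ℕ) : Finset (Fin n) := Finset.univ.filter (fun j : Fin n => m.testBit j = true)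

theorem mem_unmask (m : ℕ) (j : Fin n) : j ∈ unmask n m ↔ m.testBit j = true := by
  simp [unmask]

theorem mask_lt (s : Finset (Fin n)) : mask s < 2 ^ n := Nat.ofBits_lt_two_pow _

theorem mask_test (s : Finset (Fin n)) (j : Fin n) : (mask s).testBit j = decide (j ∈ s) := by
  have := Nat.testBit_ofBits_lt (fun j : Fin n => decide (j ∈ s)) j j.2
  simpa [mask] using this

theorem eq_of_bits {a y : ℕ} (ha : a < 2 ^ n) (hy : y < 2 ^ n)
    (h : ∀ j : Fin n, a.testBit j = y.testBit j) : a = y := by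
  apply Nat.eq_of_testBit_eq
  intro i
  by_cases hi : i < n
  · exact h ⟨i, hi⟩
  · have h10 : 2 ^ n ≤ 2 ^ i := Nat.pow_le_pow_right (by norm_num) (by omega)
    rw [Nat.testBit_lt_two_pow (lt_of_lt_of_le ha h10),
      Nat.testBit_lt_two_pow (lt_of_lt_of_le hy h10)]

theorem land_iff {a y : ℕ} (ha : a < 2 ^ n) :
    a &&& y = a ↔ ∀ j : Fin n, a.testBit j = true → y.testBit j = true := by
  constructor
  · intro h j hj
    rw [← h, Nat.testBit_and] at hj
    simp only [Bool.and_eq_true] at hj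
    exact hj.2
  · intro h
    apply eq_of_bits (lt_of_le_of_lt Nat.and_le_left ha) ha
    intro j
    rw [Nat.testBit_and]
    cases hj : a.testBit j with
    | false => simp
    | true => simp [h j hj]

theorem unmask_subset_iff {a : ℕ} (ha : a < 2 ^ n) (s : Finset (Fin n)) :
    unmask n a ⊆ s ↔ a &&& mask s = a := by
  rw [land_iff ha]
  constructor
  · intro h j hj
    rw [mask_test]
    exact decide_eq_true (h ((mem_unmask a j).2 hj))
  · intro h j hj
    have := h j ((mem_unmask a j).1 hj)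
    rw [mask_test] at this
    exact of_decide_eq_true this

theorem subset_unmask_iff (a : ℕ) (s : Finset (Fin n)) :
    s ⊆ unmask n a ↔ mask s &&& a = mask s := by
  rw [land_iff (mask_lt s)]
  constructor
  · intro h j hj
    rw [mask_test] at hj
    exact (mem_unmask a j).1 (h (of_decide_eq_true hj))
  · intro h j hj
    rw [mem_unmask]
    apply h
    rw [mask_test]
    exact decide_eq_true hj

/-- membership of a mask in an interval -/
def inside (y : ℕ) (p : ℕ × ℕ) : Bool := (p.1 &&& y == p.1) && (y &&& p.2 == y)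

theorem inside_iff {p : ℕ × ℕ} (hp : p.1 < 2 ^ n) (s : Finset (Fin n)) :
    inside (mask s) p = true ↔ unmask n p.1 ⊆ s ∧ s ⊆ unmask n p.2 := by
  unfold inside
  rw [Bool.and_eq_true, beq_iff_eq, beq_iff_eq, unmask_subset_iff hp, subset_unmask_iff]

/-- up-set generated by masks -/
def up (mins : List ℕ) (y : ℕ) : Bool := mins.any (fun m => m &&& y == m)

theorem up_iff (mins : List ℕ) (hm : ∀ m ∈ mins, m < 2 ^ n) (s : Finset (Fin n)) :
    up mins (mask s) = true ↔ ∃ m ∈ mins, unmask n m ⊆ s := by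
  unfold up
  rw [List.any_eq_true]
  constructor
  · rintro ⟨m, hm', h⟩
    exact ⟨m, hm', (unmask_subset_iff (hm m hm') s).2 (by simpa using h)⟩
  · rintro ⟨m, hm', h⟩
    exact ⟨m, hm', by simpa using (unmask_subset_iff (hm m hm') s).1 h⟩

/-- The version with bit masks. -/
theorem decomp_of_masks (I : Ideal (MvPolynomial (Fin n) K)) (mins : List ℕ) (ivs : List (ℕ × ℕ))
    (hI : ∀ a, monomial a (1 : K) ∉ I ↔ ¬ ∃ m ∈ mins, unmask n m ⊆ a.support)
    (hm : ∀ m ∈ mins, m < 2 ^ n)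
    (h2a : ∀ p ∈ ivs, p.1 &&& p.2 = p.1 ∧ p.1 < 2 ^ n ∧ p.2 < 2 ^ n)
    (h1 : ∀ y < 2 ^ n, up mins y = !(ivs.any (inside y)))
    (h2 : ∀ p ∈ ivs, ∀ q ∈ ivs, p = q ∨
      (p.1 ||| q.1) &&& (p.2 &&& q.2) ≠ (p.1 ||| q.1))
    (c : ℕ) (hc : ∀ p ∈ ivs, c ≤ (unmask n p.2).card) :
    ∃ D, IsStanleyDecomposition I D ∧ ∀ p ∈ D, c ≤ p.2.card := by
  classical
  refine decomp_of_partition I (fun s => ¬ ∃ m ∈ mins, unmask n m ⊆ s) hI
    (ivs.map (fun p => (unmask n p.1, unmask n p.2))).toFinset ?_ ?_ ?_ ?_ c ?_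
  · intro p hp
    rw [List.mem_toFinset, List.mem_map] at hp
    obtain ⟨q, hq, rfl⟩ := hp
    intro j hj
    rw [mem_unmask] at hj ⊢
    exact (land_iff (h2a q hq).2.1).1 (h2a q hq).1 j hj
  · intro p hp s hs1 hs2
    rw [List.mem_toFinset, List.mem_map] at hp
    obtain ⟨q, hq, rfl⟩ := hp
    rw [← up_iff mins hm, h1 _ (mask_lt s)]
    have h6 : ivs.any (inside (mask s)) = true :=
      List.any_eq_true.2 ⟨q, hq, (inside_iff (h2a q hq).2.1 s).2 ⟨hs1, hs2⟩⟩
    rw [h6]; simp
  · intro s hs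
    have hs' : ¬ (up mins (mask s) = true) := fun h => hs ((up_iff mins hm s).1 h)
    rw [h1 _ (mask_lt s)] at hs'
    have h3 : ivs.any (inside (mask s)) = true := by simpa using hs'
    rw [List.any_eq_true] at h3
    obtain ⟨p, hp, h4⟩ := h3
    have h5 := (inside_iff (h2a p hp).2.1 s).1 h4
    exact ⟨(unmask n p.1, unmask n p.2), by
      rw [List.mem_toFinset]; exact List.mem_map_of_mem hp, h5⟩
  · intro p hp q hq s hp1 hp2 hq1 hq2
    rw [List.mem_toFinset, List.mem_map] at hp hq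
    obtain ⟨p, hp, rfl⟩ := hp
    obtain ⟨q, hq, rfl⟩ := hq
    rcases h2 p hp q hq with h3 | h3
    · rw [h3]
    · exfalso
      apply h3
      have hor : p.1 ||| q.1 < 2 ^ n := Nat.or_lt_two_pow (h2a p hp).2.1 (h2a q hq).2.1
      rw [land_iff hor]
      intro j hj
      rw [Nat.testBit_or, Bool.or_eq_true] at hj
      rw [Nat.testBit_and, Bool.and_eq_true]
      have hs : j ∈ s := by
        rcases hj with hj | hj
        · exact hp1 ((mem_unmask _ j).2 hj)
        · exact hq1 ((mem_unmask _ j).2 hj)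
      exact ⟨(mem_unmask _ j).1 (hp2 hs), (mem_unmask _ j).1 (hq2 hs)⟩
  · intro p hp
    rw [List.mem_toFinset, List.mem_map] at hp
    obtain ⟨q, hq, rfl⟩ := hp
    exact hc q hq

end Pool.Agent.R716.SP
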