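import Mathlib
import Pool.Agent.R716.SP.Part
import Pool.Agent.H408R3.PdTools
import Pool.Agent.H607R3.PD.PdLower

set_option autoImplicit false

namespace Pool.Agent.R716.SP

open MvPolynomial CategoryTheory RingTheory.Sequence
open Pool.Agent.H408R3.PDF Pool.Agent.Helper698.Dstab Pool.Agent.Helper698.Symb

section gen

variable {n : ℕ} {K : Type} [Field K]

theorem mem_monIdeal {A : Finset (Fin n →₀ ℕ)} (f : MvPolynomial (Fin n) K) :
    f ∈ monIdeal K A ↔ ∀ α ∈ f.support, ∃ g ∈ A, g ≤ α := by
  rw [monIdeal, mem_ideal_span_monomial_image]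
  simp

theorem monomial_mem_monIdeal {A : Finset (Fin n →₀ ℕ)} (a : Fin n →₀ ℕ) :
    monomial a (1 : K) ∈ monIdeal K A ↔ ∃ g ∈ A, g ≤ a := by
  classical
  rw [mem_monIdeal]
  have : (monomial a (1 : K)).support = {a} := by
    rw [support_monomial, if_neg one_ne_zero]
  rw [this]
  simp

theorem ind_le_iff (F : Finset (Fin n)) (a : Fin n →₀ ℕ) : ind F ≤ a ↔ F ⊆ a.support := by
  constructor
  · intro h j hj
    have := h j
    rw [ind_apply, if_pos hj] at this
    rw [Finsupp.mem_support_iff]
    omega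
  · intro h j
    rw [ind_apply]
    split_ifs with hj
    · have := Finsupp.mem_support_iff.1 (h hj)
      omega
    · omega

/-- the exact sequence of an intersection of two ideals -/
theorem inter_exact {R : Type} [CommRing R] (I J : Ideal R) :
    ∃ (f : (R ⧸ (I ⊓ J)) →ₗ[R] (R ⧸ I) × (R ⧸ J)) (g : ((R ⧸ I) × (R ⧸ J)) →ₗ[R] (R ⧸ (I ⊔ J))),
      Function.Injective f ∧ Function.Surjective g ∧ Function.Exact f g := by
  refine ⟨LinearMap.prod (Submodule.mapQ (I ⊓ J) I LinearMap.id inf_le_left)
    (Submodule.mapQ (I ⊓ J) J LinearMap.id inf_le_right),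
    (Submodule.mapQ I (I ⊔ J) LinearMap.id le_sup_left).comp (LinearMap.fst R _ _) -
    (Submodule.mapQ J (I ⊔ J) LinearMap.id le_sup_right).comp (LinearMap.snd R _ _), ?_, ?_, ?_⟩
  · rw [← LinearMap.ker_eq_bot, LinearMap.ker_eq_bot']
    intro m
    obtain ⟨f, rfl⟩ := Submodule.Quotient.mk_surjective _ m
    intro h0
    have h1 : (Submodule.Quotient.mk f : R ⧸ I) = 0 := congrArg Prod.fst h0
    have h2 : (Submodule.Quotient.mk f : R ⧸ J) = 0 := congrArg Prod.snd h0
    rw [Submodule.Quotient.mk_eq_zero] at h1 h2 ⊢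
    exact ⟨h1, h2⟩
  · intro m
    obtain ⟨f, rfl⟩ := Submodule.Quotient.mk_surjective _ m
    refine ⟨(Submodule.Quotient.mk f, 0), ?_⟩
    show (Submodule.Quotient.mk f : R ⧸ (I ⊔ J)) - Submodule.mapQ J (I ⊔ J) LinearMap.id le_sup_right 0 = _
    rw [map_zero, sub_zero]
  · rintro ⟨a, b⟩
    obtain ⟨a, rfl⟩ := Submodule.Quotient.mk_surjective _ a
    obtain ⟨b, rfl⟩ := Submodule.Quotient.mk_surjective _ b
    constructor
    · intro h0
      have h1 : (Submodule.Quotient.mk a : R ⧸ (I ⊔ J)) - Submodule.Quotient.mk b = 0 := h0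
      rw [← Submodule.Quotient.mk_sub, Submodule.Quotient.mk_eq_zero] at h1
      obtain ⟨x, hx, y, hy, hxy⟩ := Submodule.mem_sup.1 h1
      refine ⟨Submodule.Quotient.mk (a - x), ?_⟩
      apply Prod.ext
      · show (Submodule.Quotient.mk (a - x) : R ⧸ I) = Submodule.Quotient.mk a
        rw [Submodule.Quotient.eq]
        simpa using hx
      · show (Submodule.Quotient.mk (a - x) : R ⧸ J) = Submodule.Quotient.mk b
        rw [Submodule.Quotient.eq]
        have : a - x - b = y := by rw [sub_right_comm, ← hxy]; ring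
        rw [this]; exact hy
    · rintro ⟨m, hm⟩
      obtain ⟨f, rfl⟩ := Submodule.Quotient.mk_surjective _ m
      rw [← hm]
      show (Submodule.Quotient.mk f : R ⧸ (I ⊔ J)) - Submodule.Quotient.mk f = 0
      rw [sub_self]

theorem PD_prod {R : Type} [CommRing R] {A B : Type} [AddCommGroup A] [Module R A]
    [AddCommGroup B] [Module R B] {t : ℕ} (hA : PD (R := R) A t) (hB : PD (R := R) B t) :
    PD (R := R) (A × B) t :=
  PD_mid (LinearMap.inl R A B) (LinearMap.snd R A B) LinearMap.inl_injective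
    LinearMap.snd_surjective (Function.Exact.inl_snd) hA hB

/-- variables form a regular sequence -/
theorem isRegular_X (n : ℕ) : IsRegular (MvPolynomial (Fin n) K)
    ((List.finRange n).map (X : Fin n → MvPolynomial (Fin n) K)) := by
  set l := List.finRange n with hl'
  have hl : l.Nodup := List.nodup_finRange n
  have hspan : ∀ l' : List (Fin n), Ideal.ofList (l'.map (X : Fin n → MvPolynomial (Fin n) K)) =
      Ideal.span ((X : Fin n → MvPolynomial (Fin n) K) '' {a | a ∈ l'}) := by
    intro l'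
    rw [Ideal.ofList]
    congr 1
    ext p
    simp
  refine ⟨⟨?_⟩, ?_⟩
  · intro i hi
    rw [isSMulRegular_quotient_iff_mem_of_smul_mem]
    intro p hp
    rw [smul_eq_mul, Ideal.mul_top] at hp ⊢
    rw [← List.map_take, hspan] at hp ⊢
    rw [List.length_map] at hi
    rw [List.getElem_map] at hp
    rw [mem_ideal_span_X_image] at hp ⊢
    intro m hm
    classical
    have h1 : m + Finsupp.single l[i] 1 ∈
        ((X l[i] : MvPolynomial (Fin n) K) • p).support := by
      rw [mem_support_iff, smul_eq_mul, mul_comm, coeff_mul_X]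
      exact mem_support_iff.1 hm
    obtain ⟨a, ha, ha2⟩ := hp _ h1
    refine ⟨a, ha, ?_⟩
    have hne : l[i] ≠ a := by
      intro h
      subst h
      have h3 : l[i] ∈ l.take i := ha
      rw [List.mem_take_iff_getElem] at h3
      obtain ⟨j, hj, hj2⟩ := h3
      have := (List.Nodup.getElem_inj_iff hl).1 hj2
      omega
    rw [Finsupp.add_apply, Finsupp.single_eq_of_ne hne.symm, add_zero] at ha2
    exact ha2
  · intro h
    rw [smul_eq_mul, Ideal.mul_top, hspan] at h
    have h1 : (1 : MvPolynomial (Fin n) K) ∈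
        Ideal.span ((X : Fin n → MvPolynomial (Fin n) K) '' {a | a ∈ l}) := by
      rw [← h]; trivial
    rw [mem_ideal_span_X_image] at h1
    obtain ⟨a, _, ha⟩ := h1 0 (by
      rw [mem_support_iff]
      simp)
    simp at ha

/-- the residue field has projective dimension at least `n` -/
theorem not_PD_residue : ¬ PD (R := MvPolynomial (Fin n) K)
    (MvPolynomial (Fin n) K ⧸ MI K (US (Finset.univ : Finset (Fin n)))) n := by
  intro h
  rcases Nat.eq_zero_or_pos n with hn | hn
  · subst hn
    have h1 : Limits.IsZero (ModuleCat.of (MvPolynomial (Fin 0) K)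
      (MvPolynomial (Fin 0) K ⧸ MI K (US (Finset.univ : Finset (Fin 0))))) :=
      @isZero_of_hasProjectiveDimensionLT_zero _ _ _ _ h
    rw [ModuleCat.isZero_iff_subsingleton] at h1
    have h2 := (Submodule.Quotient.subsingleton_iff).1 h1
    have h3 : (1 : MvPolynomial (Fin 0) K) ∈ MI K (US (Finset.univ : Finset (Fin 0))) := by
      rw [h2]; trivial
    rw [mem_MI (isUpperSet_US _)] at h3
    obtain ⟨j, _, _⟩ := h3 0 (by rw [mem_support_iff]; simp)
    exact j.elim0
  · obtain ⟨m, rfl⟩ : ∃ m, n = m + 1 := ⟨n - 1, by omega⟩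
    have h' : HasProjectiveDimensionLE (ModuleCat.of (MvPolynomial (Fin (m + 1)) K)
      (MvPolynomial (Fin (m + 1)) K ⧸ MI K (US (Finset.univ : Finset (Fin (m + 1)))))) m := h
    have h3 := @Pool.Agent.H607R3.PD.pd_lower _ _ _ _ (isRegular_X (K := K) (m + 1))
      (ModuleCat.of (MvPolynomial (Fin (m + 1)) K)
      (MvPolynomial (Fin (m + 1)) K ⧸ MI K (US (Finset.univ : Finset (Fin (m + 1))))))
      inferInstance m h' (by simp) (Submodule.Quotient.mk (1 : MvPolynomial (Fin (m + 1)) K)) ?_
    · rw [Submodule.Quotient.mk_eq_zero, mem_MI (isUpperSet_US _)] at h3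
      obtain ⟨j, _, hj⟩ := h3 0 (by rw [mem_support_iff]; simp)
      simp at hj
    · intro r hr
      obtain ⟨j, _, rfl⟩ := List.mem_map.1 hr
      show (Submodule.Quotient.mk ((X j : MvPolynomial (Fin (m + 1)) K) • 1) :
        MvPolynomial (Fin (m + 1)) K ⧸ MI K (US (Finset.univ : Finset (Fin (m + 1))))) = 0
      rw [Submodule.Quotient.mk_eq_zero, smul_eq_mul, mul_one, X]
      have hj : Finsupp.single j 1 ∈ US (Finset.univ : Finset (Fin (m + 1))) :=
        ⟨j, Finset.mem_univ j, by simp⟩
      exact monomial_mem_MI hj 1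

end gen

end Pool.Agent.R716.SP
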