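import Mathlib
import Pool.Agent.R716.SP.KM2

/-! The Taylor complex of a list of monomials. -/

set_option autoImplicit false

namespace Pool.Agent.R716.SP.Taylor

open MvPolynomial CategoryTheory
open Pool.Agent.H408R3.PDF

variable {k : ℕ}

/-! ### signs and the simplex -/

/-- the sign exponent -/
def ps (j : Fin k) (G : Finset (Fin k)) : ℕ := (G.filter (fun i => i < j)).card

theorem ps_insert (j i : Fin k) (G : Finset (Fin k)) (hi : i ∉ G) :
    ps j (insert i G) = ps j G + if i < j then 1 else 0 := by
  unfold ps
  rw [Finset.filter_insert]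
  split_ifs with h
  · rw [Finset.card_insert_of_notMem]
    intro h'
    exact hi (Finset.mem_filter.1 h').1
  · simp

variable {K : Type} [Field K]

/-- the sign -/
def sg (K : Type) [Field K] (j : Fin k) (G : Finset (Fin k)) : K := (-1) ^ ps j G

theorem sg_mul_self (j : Fin k) (G : Finset (Fin k)) : sg K j G * sg K j G = 1 := by
  rw [sg, ← pow_add, ← two_mul, pow_mul]; simp

theorem sg_ne_zero (j : Fin k) (G : Finset (Fin k)) : sg K j G ≠ 0 := by
  intro h
  have := sg_mul_self (K := K) j G
  rw [h] at this
  simp at this

theorem sg_swap (i j : Fin k) (hij : i ≠ j) (G : Finset (Fin k)) (hi : i ∉ G) (hj : j ∉ G) :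
    sg K i G * sg K j (insert i G) + sg K j G * sg K i (insert j G) = 0 := by
  unfold sg
  rw [ps_insert j i G hi, ps_insert i j G hj]
  rcases lt_or_gt_of_ne hij with h | h
  · rw [if_pos h, if_neg (not_lt.2 h.le)]
    rw [pow_add]; ring
  · rw [if_neg (not_lt.2 h.le), if_pos h]
    rw [pow_add]; ring

/-- simplicial boundary -/
def bd (c : Finset (Fin k) → K) (G : Finset (Fin k)) : K :=
  ∑ j ∈ Gᶜ, sg K j G * c (insert j G)

/-- cone -/
def co (i : Fin k) (c : Finset (Fin k) → K) (F : Finset (Fin k)) : K :=
  if i ∈ F then sg K i (F.erase i) * c (F.erase i) else 0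

theorem bd_co (i : Fin k) (c : Finset (Fin k) → K) (h : ∀ G, bd c G = 0) :
    ∀ G, bd (co i c) G = c G := by
  intro G
  by_cases hi : i ∈ G
  · -- use the relation at `G.erase i`
    have h1 := h (G.erase i)
    set G' := G.erase i with hG'
    have hG : insert i G' = G := Finset.insert_erase hi
    have hiG' : i ∉ G' := Finset.notMem_erase i G
    have hcompl : G'ᶜ = insert i Gᶜ := by
      ext x
      simp only [hG', Finset.mem_compl, Finset.mem_erase, Finset.mem_insert]
      tauto
    have hiGc : i ∉ Gᶜ := by simpa using hi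
    rw [bd, hcompl, Finset.sum_insert hiGc, hG] at h1
    -- `sg i G' c(G) + Σ sg j G' c (insert j G') = 0`
    have h2 : bd (co i c) G = ∑ j ∈ Gᶜ, sg K j G * (sg K i (insert j G') * c (insert j G')) := by
      rw [bd]
      refine Finset.sum_congr rfl (fun j hj => ?_)
      have hj : j ∉ G := by simpa using hj
      have hij : j ≠ i := fun h => hj (h ▸ hi)
      have h3 : (insert j G).erase i = insert j G' := by
        rw [hG', Finset.erase_insert_of_ne hij]
      rw [co, if_pos (Finset.mem_insert_of_mem hi), h3]
    rw [h2]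
    have h4 : ∀ j ∈ Gᶜ, sg K j G * (sg K i (insert j G') * c (insert j G')) =
        -(sg K i G' * (sg K j G' * c (insert j G'))) := by
      intro j hj
      have hj : j ∉ G := by simpa using hj
      have hij : i ≠ j := fun h => hj (h ▸ hi)
      have hjG' : j ∉ G' := fun h => hj (Finset.mem_of_mem_erase h)
      have h5 := sg_swap (K := K) i j hij G' hiG' hjG'
      rw [hG] at h5
      have h6 : sg K j G * sg K i (insert j G') = - (sg K i G' * sg K j G') := by
        have e1 := sg_mul_self (K := K) i G'
        have e2 := sg_mul_self (K := K) j G'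
        have : sg K i G' * sg K j G = - (sg K j G' * sg K i (insert j G')) := by
          linear_combination h5
        have e3 := sg_mul_self (K := K) i (insert j G')
        calc sg K j G * sg K i (insert j G')
            = (sg K i G' * sg K i G') * (sg K j G * sg K i (insert j G')) := by rw [e1, one_mul]
          _ = sg K i G' * (sg K i G' * sg K j G) * sg K i (insert j G') := by ring
          _ = sg K i G' * (- (sg K j G' * sg K i (insert j G'))) * sg K i (insert j G') := by
              rw [this]
          _ = - (sg K i G' * sg K j G') * (sg K i (insert j G') * sg K i (insert j G')) := by ring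
          _ = - (sg K i G' * sg K j G') := by rw [e3, mul_one]
      rw [← mul_assoc, h6]; ring
    rw [Finset.sum_congr rfl h4, Finset.sum_neg_distrib, ← Finset.mul_sum]
    have h7 : ∑ j ∈ Gᶜ, sg K j G' * c (insert j G') = - (sg K i G' * c G) := by
      linear_combination h1
    rw [h7]
    have e1 := sg_mul_self (K := K) i G'
    linear_combination (c G) * e1
  · rw [bd, Finset.sum_eq_single i]
    · rw [co, if_pos (Finset.mem_insert_self i G), Finset.erase_insert hi, ← mul_assoc,
        sg_mul_self, one_mul]
    · intro j hj hji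
      have : i ∉ insert j G := by
        rw [Finset.mem_insert]
        rintro (h | h)
        · exact hji h.symm
        · exact hi h
      rw [co, if_neg this, mul_zero]
    · intro h
      exact absurd (Finset.mem_compl.2 hi) h

/-! ### the Taylor complex -/

variable {n : ℕ}

variable (K) in
/-- the total module -/
abbrev T (k n : ℕ) : Type := Finset (Fin k) → MvPolynomial (Fin n) K

/-- lcm exponent -/
noncomputable def lc (a : Fin k → (Fin n →₀ ℕ)) (F : Finset (Fin k)) : Fin n →₀ ℕ := F.sup a

variable {a : Fin k → (Fin n →₀ ℕ)}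

theorem lc_le {F : Finset (Fin k)} {v : Fin n →₀ ℕ} : lc a F ≤ v ↔ ∀ j ∈ F, a j ≤ v :=
  Finset.sup_le_iff

theorem lc_mono {F G : Finset (Fin k)} (h : F ⊆ G) : lc a F ≤ lc a G := Finset.sup_mono h

/-- the differential -/
noncomputable def d (K : Type) [Field K] (a : Fin k → (Fin n →₀ ℕ)) :
    T K k n →ₗ[MvPolynomial (Fin n) K] T K k n where
  toFun f G := ∑ j ∈ Gᶜ, monomial (lc a (insert j G) - lc a G) (sg K j G) * f (insert j G)
  map_add' f g := by
    funext G
    simp only [Pi.add_apply, mul_add, Finset.sum_add_distrib]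
  map_smul' r f := by
    funext G
    simp only [Pi.smul_apply, smul_eq_mul, RingHom.id_apply, Finset.mul_sum]
    refine Finset.sum_congr rfl (fun j _ => ?_)
    ring

theorem d_apply (f : T K k n) (G : Finset (Fin k)) :
    d K a f G = ∑ j ∈ Gᶜ, monomial (lc a (insert j G) - lc a G) (sg K j G) * f (insert j G) := rfl

/-- the strand of multidegree `v` -/
noncomputable def st (a : Fin k → (Fin n →₀ ℕ)) (v : Fin n →₀ ℕ) (f : T K k n)
    (F : Finset (Fin k)) : K :=
  by classical exact if lc a F ≤ v then coeff (v - lc a F) (f F) else 0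

theorem st_d (v : Fin n →₀ ℕ) (f : T K k n) (G : Finset (Fin k)) :
    st a v (d K a f) G = bd (st a v f) G := by
  classical
  by_cases hG : lc a G ≤ v
  · have h1 : st a v (d K a f) G = coeff (v - lc a G) (d K a f G) := by
      rw [st, if_pos hG]
    rw [h1, d_apply, coeff_sum, bd]
    refine Finset.sum_congr rfl (fun j _ => ?_)
    rw [coeff_monomial_mul']
    have hGi : lc a G ≤ lc a (insert j G) := lc_mono (Finset.subset_insert j G)
    by_cases h : lc a (insert j G) ≤ v
    · have h2 : lc a (insert j G) - lc a G ≤ v - lc a G := tsub_le_tsub_right h _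
      rw [if_pos h2, st, if_pos h]
      congr 2
      rw [tsub_tsub_tsub_cancel_right hGi]
    · have h2 : ¬ (lc a (insert j G) - lc a G ≤ v - lc a G) := by
        intro h2
        apply h
        rw [tsub_le_iff_right] at h2
        rwa [tsub_add_cancel_of_le hG] at h2
      rw [if_neg h2, st, if_neg h, mul_zero]
  · rw [st, if_neg hG, bd]
    rw [Finset.sum_eq_zero]
    intro j _
    have : ¬ (lc a (insert j G) ≤ v) := fun h => hG ((lc_mono (Finset.subset_insert j G)).trans h)
    rw [st, if_neg this, mul_zero]

theorem st_ext {f g : T K k n} (h : ∀ v F, st a v f F = st a v g F) : f = g := by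
  classical
  funext F
  ext u
  have h1 := h (u + lc a F) F
  rw [st, st, if_pos le_add_self, if_pos le_add_self, add_tsub_cancel_right] at h1
  exact h1

/-- lift a strand -/
noncomputable def li (a : Fin k → (Fin n →₀ ℕ)) (v : Fin n →₀ ℕ) (c : Finset (Fin k) → K) :
    T K k n := fun F => by classical exact if lc a F ≤ v then monomial (v - lc a F) (c F) else 0

theorem st_li_same (v : Fin n →₀ ℕ) (c : Finset (Fin k) → K) (F : Finset (Fin k))
    (h : lc a F ≤ v) : st a v (li a v c) F = c F := by
  classical
  rw [st, if_pos h, li, if_pos h, coeff_monomial, if_pos rfl]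

theorem st_li_of_not_le (v w : Fin n →₀ ℕ) (c : Finset (Fin k) → K) (F : Finset (Fin k))
    (h : ¬ lc a F ≤ v) : st a w (li a v c) F = 0 := by
  classical
  rw [st]
  split_ifs with h1
  · rw [li, if_neg h]; simp
  · rfl

theorem st_li_ne (v w : Fin n →₀ ℕ) (hvw : v ≠ w) (c : Finset (Fin k) → K)
    (F : Finset (Fin k)) : st a w (li a v c) F = 0 := by
  classical
  rw [st]
  split_ifs with h1
  · rw [li]
    split_ifs with h2
    · rw [coeff_monomial, if_neg]
      intro h3
      apply hvw
      rw [← tsub_add_cancel_of_le h2, h3, tsub_add_cancel_of_le h1]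
    · simp
  · rfl

theorem st_add (v : Fin n →₀ ℕ) (f g : T K k n) (F : Finset (Fin k)) :
    st a v (f + g) F = st a v f F + st a v g F := by
  classical
  rw [st, st, st]
  split_ifs
  · rw [Pi.add_apply, coeff_add]
  · simp

theorem st_zero (v : Fin n →₀ ℕ) (F : Finset (Fin k)) : st a v (0 : T K k n) F = 0 := by
  classical
  rw [st]
  split_ifs <;> simp

theorem st_sum {ι : Type} (v : Fin n →₀ ℕ) (s : Finset ι) (f : ι → T K k n)
    (F : Finset (Fin k)) : st a v (∑ i ∈ s, f i) F = ∑ i ∈ s, st a v (f i) F := by
  classical
  induction s using Finset.induction_on with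
  | empty => simp [st_zero]
  | insert i s hi ih => rw [Finset.sum_insert hi, Finset.sum_insert hi, st_add, ih]

/-- degree `i` part -/
def Tc (K : Type) [Field K] (k n i : ℕ) : Submodule (MvPolynomial (Fin n) K) (T K k n) where
  carrier := {f | ∀ F, F.card ≠ i → f F = 0}
  add_mem' hf hg F hF := by
    rw [Pi.add_apply, hf F hF, hg F hF, add_zero]
  zero_mem' F _ := rfl
  smul_mem' r f hf F hF := by
    rw [Pi.smul_apply, hf F hF, smul_zero]

theorem mem_Tc {i : ℕ} {f : T K k n} : f ∈ Tc K k n i ↔ ∀ F, F.card ≠ i → f F = 0 := Iff.rfl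

/-- Exactness of the Taylor complex in positive degrees. -/
theorem exact_pos {i : ℕ} (hi : i ≠ 0) (f : T K k n) (hf : f ∈ Tc K k n i) (h0 : d K a f = 0) :
    ∃ g ∈ Tc K k n (i + 1), d K a g = f := by
  classical
  -- the strands
  have hst : ∀ v G, bd (st a v f) G = 0 := by
    intro v G
    rw [← st_d, h0, st_zero]
  have hstc : ∀ v F, F.card ≠ i → st a v f F = 0 := by
    intro v F hF
    rw [st]
    split_ifs
    · rw [hf F hF]; simp
    · rfl
  have hstl : ∀ v F, ¬ lc a F ≤ v → st a v f F = 0 := by
    intro v F hF
    rw [st, if_neg hF]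
  -- choice of a cone point
  have hex : ∀ v : Fin n →₀ ℕ, ∃ c : Finset (Fin k) → K, (∀ G, bd c G = st a v f G) ∧
      (∀ F, F.card ≠ i + 1 → c F = 0) ∧ (∀ F, ¬ lc a F ≤ v → c F = 0) := by
    intro v
    by_cases hv : ∃ j, a j ≤ v
    · obtain ⟨j, hj⟩ := hv
      refine ⟨co j (st a v f), bd_co j _ (hst v), ?_, ?_⟩
      · intro F hF
        rw [co]
        split_ifs with hjF
        · rw [hstc, mul_zero]
          rw [Finset.card_erase_of_mem hjF]
          have : 0 < F.card := Finset.card_pos.2 ⟨j, hjF⟩
          omega
        · rfl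
      · intro F hF
        rw [co]
        split_ifs with hjF
        · rw [hstl, mul_zero]
          intro h
          apply hF
          rw [lc_le] at h ⊢
          intro x hx
          by_cases hxj : x = j
          · rw [hxj]; exact hj
          · exact h x (Finset.mem_erase.2 ⟨hxj, hx⟩)
        · rfl
    · refine ⟨fun _ => 0, ?_, fun _ _ => rfl, fun _ _ => rfl⟩
      intro G
      have h1 : st a v f G = 0 := by
        rcases Finset.eq_empty_or_nonempty G with rfl | ⟨x, hx⟩
        · apply hstc
          rw [Finset.card_empty]; exact hi.symm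
        · apply hstl
          intro h
          exact hv ⟨x, lc_le.1 h x hx⟩
      rw [h1, bd]
      simp
  choose c hc1 hc2 hc3 using hex
  -- finite set of degrees
  let V : Finset (Fin n →₀ ℕ) := Finset.univ.biUnion
    (fun F : Finset (Fin k) => (f F).support.image (fun u => u + lc a F))
  have hV : ∀ v, v ∉ V → ∀ F, st a v f F = 0 := by
    intro v hv F
    rw [st]
    split_ifs with h
    · by_contra hne
      apply hv
      apply Finset.mem_biUnion.2
      refine ⟨F, Finset.mem_univ F, Finset.mem_image.2 ⟨v - lc a F, mem_support_iff.2 hne, ?_⟩⟩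
      exact tsub_add_cancel_of_le h
    · rfl
  refine ⟨∑ v ∈ V, li a v (c v), ?_, ?_⟩
  · apply Submodule.sum_mem
    intro v _ F hF
    rw [li]
    split_ifs
    · rw [hc2 v F hF]; simp
    · rfl
  · apply st_ext (a := a)
    intro w G
    rw [st_d]
    have key : ∀ F, st a w (∑ v ∈ V, li a v (c v)) F = if w ∈ V then c w F else 0 := by
      intro F
      rw [st_sum]
      split_ifs with hw
      · rw [Finset.sum_eq_single w]
        · by_cases h : lc a F ≤ w
          · exact st_li_same w (c w) F h
          · rw [st_li_of_not_le w w (c w) F h, hc3 w F h]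
        · intro v _ hvw
          exact st_li_ne v w hvw _ F
        · intro h; exact absurd hw h
      · apply Finset.sum_eq_zero
        intro v hv
        exact st_li_ne v w (fun h => hw (h ▸ hv)) _ F
    by_cases hw : w ∈ V
    · have : (fun F => st a w (∑ v ∈ V, li a v (c v)) F) = c w := by
        funext F
        rw [key F, if_pos hw]
      have h2 : bd (st a w (∑ v ∈ V, li a v (c v))) G = bd (c w) G := by
        rw [bd, bd]
        refine Finset.sum_congr rfl (fun j _ => ?_)
        rw [key, if_pos hw]
      rw [h2, hc1]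
    · rw [hV w hw G, bd]
      apply Finset.sum_eq_zero
      intro j _
      rw [key, if_neg hw, mul_zero]

end Pool.Agent.R716.SP.Taylor
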