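import Mathlib
import Pool.Agent.R716.SP.Taylor

set_option autoImplicit false

namespace Pool.Agent.R716.SP.Taylor

open MvPolynomial CategoryTheory
open Pool.Agent.H408R3.PDF

variable {k n : ℕ} {K : Type} [Field K] {a : Fin k → (Fin n →₀ ℕ)}

theorem monomial_sg_mul (i j : Fin k) (G : Finset (Fin k)) (hi : i ∉ G) (hj : j ∉ G)
    (hij : i ≠ j) :
    monomial (lc a (insert i G) - lc a G) (sg K i G) *
      monomial (lc a (insert j (insert i G)) - lc a (insert i G)) (sg K j (insert i G)) +
    monomial (lc a (insert j G) - lc a G) (sg K j G) *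
      monomial (lc a (insert i (insert j G)) - lc a (insert j G)) (sg K i (insert j G)) = 0 := by
  rw [monomial_mul, monomial_mul, Finset.insert_comm i j G]
  have h1 : lc a (insert i G) - lc a G + (lc a (insert j (insert i G)) - lc a (insert i G)) =
      lc a (insert j (insert i G)) - lc a G := by
    rw [add_comm]
    exact tsub_add_tsub_cancel (lc_mono (Finset.subset_insert _ _))
      (lc_mono (Finset.subset_insert _ _))
  have h2 : lc a (insert j G) - lc a G + (lc a (insert j (insert i G)) - lc a (insert j G)) =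
      lc a (insert j (insert i G)) - lc a G := by
    rw [Finset.insert_comm, add_comm]
    exact tsub_add_tsub_cancel (lc_mono (Finset.subset_insert _ _))
      (lc_mono (Finset.subset_insert _ _))
  rw [h1, h2, ← map_add, sg_swap i j hij G hi hj, map_zero]

theorem d_d (f : T K k n) : d K a (d K a f) = 0 := by
  classical
  funext G
  rw [d_apply, Pi.zero_apply]
  have h1 : ∀ i ∈ Gᶜ, monomial (lc a (insert i G) - lc a G) (sg K i G) * d K a f (insert i G) =
      ∑ j ∈ (insert i G)ᶜ, monomial (lc a (insert i G) - lc a G) (sg K i G) *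
        (monomial (lc a (insert j (insert i G)) - lc a (insert i G)) (sg K j (insert i G)) *
          f (insert j (insert i G))) := by
    intro i _
    rw [d_apply, Finset.mul_sum]
  rw [Finset.sum_congr rfl h1, Finset.sum_sigma']
  refine Finset.sum_involution (fun x _ => ⟨x.2, x.1⟩) ?_ ?_ ?_ ?_
  · rintro ⟨i, j⟩ hx
    rw [Finset.mem_sigma, Finset.mem_compl, Finset.mem_compl, Finset.mem_insert, not_or] at hx
    obtain ⟨hi, hji, hj⟩ := hx
    have h2 := monomial_sg_mul (K := K) (a := a) i j G hi hj (Ne.symm hji)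
    simp only
    rw [Finset.insert_comm i j G]
    rw [Finset.insert_comm i j G] at h2
    linear_combination (f (insert j (insert i G))) * h2
  · rintro ⟨i, j⟩ hx _ h
    rw [Finset.mem_sigma, Finset.mem_compl, Finset.mem_compl, Finset.mem_insert, not_or] at hx
    obtain ⟨hi, hji, hj⟩ := hx
    have := congrArg Sigma.fst h
    exact hji this
  · rintro ⟨i, j⟩ hx
    rw [Finset.mem_sigma, Finset.mem_compl, Finset.mem_compl, Finset.mem_insert, not_or] at hx ⊢
    obtain ⟨hi, hji, hj⟩ := hx
    exact ⟨hj, fun h => hji h.symm, hi⟩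
  · rintro ⟨i, j⟩ _
    rfl

theorem d_mem {i : ℕ} {f : T K k n} (hf : f ∈ Tc K k n (i + 1)) : d K a f ∈ Tc K k n i := by
  intro G hG
  rw [d_apply]
  apply Finset.sum_eq_zero
  intro j hj
  rw [hf (insert j G), mul_zero]
  rw [Finset.card_insert_of_notMem (Finset.mem_compl.1 hj)]
  omega

instance (i : ℕ) : Module.Projective (MvPolynomial (Fin n) K) (Tc K k n i) := by
  classical
  let s : T K k n →ₗ[MvPolynomial (Fin n) K] Tc K k n i :=
    { toFun := fun f => ⟨fun F => if F.card = i then f F else 0, fun F hF => if_neg hF⟩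
      map_add' := fun f g => by
        apply Subtype.ext
        funext F
        show (if F.card = i then (f + g) F else 0) = (if F.card = i then f F else 0) +
          (if F.card = i then g F else 0)
        split_ifs <;> simp
      map_smul' := fun r f => by
        apply Subtype.ext
        funext F
        show (if F.card = i then (r • f) F else 0) = r • (if F.card = i then f F else 0)
        split_ifs <;> simp }
  refine Module.Projective.of_split (Tc K k n i).subtype s ?_
  apply LinearMap.ext
  intro f
  apply Subtype.ext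
  funext F
  show (if F.card = i then (f : T K k n) F else 0) = (f : T K k n) F
  split_ifs with h
  · rfl
  · exact (f.2 F h).symm

/-- cycles -/
noncomputable def Z (K : Type) [Field K] (a : Fin k → (Fin n →₀ ℕ)) (i : ℕ) :
    Submodule (MvPolynomial (Fin n) K) (T K k n) := Tc K k n i ⊓ LinearMap.ker (d K a)

theorem Z_exact {i : ℕ} (hi : i ≠ 0) :
    ∃ (f : Z K a (i + 1) →ₗ[MvPolynomial (Fin n) K] Tc K k n (i + 1))
      (g : Tc K k n (i + 1) →ₗ[MvPolynomial (Fin n) K] Z K a i),
      Function.Injective f ∧ Function.Surjective g ∧ Function.Exact f g ∧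
      (∀ x, (f x : T K k n) = x) ∧ ∀ x, (g x : T K k n) = d K a x := by
  refine ⟨Submodule.inclusion inf_le_left,
    LinearMap.codRestrict (Z K a i) ((d K a).comp (Tc K k n (i + 1)).subtype) ?_,
    Submodule.inclusion_injective _, ?_, ?_, fun _ => rfl, fun _ => rfl⟩
  · intro x
    exact ⟨d_mem x.2, d_d _⟩
  · rintro ⟨z, hz1, hz2⟩
    obtain ⟨g, hg, hgz⟩ := exact_pos hi z hz1 hz2
    exact ⟨⟨g, hg⟩, Subtype.ext hgz⟩
  · intro x
    constructor
    · intro h
      have h1 : d K a x = 0 := congrArg Subtype.val h
      exact ⟨⟨x, x.2, h1⟩, rfl⟩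
    · rintro ⟨y, rfl⟩
      exact Subtype.ext y.2.2

variable (a) in
/-- the ideal -/
noncomputable def TI (K : Type) [Field K] : Ideal (MvPolynomial (Fin n) K) :=
  Ideal.span (Set.range (fun j => monomial (a j) (1 : K)))

theorem lc_singleton (j : Fin k) : lc a {j} = a j := Finset.sup_singleton

theorem lc_empty : lc a ∅ = 0 := Finset.sup_empty

theorem Z1_exact :
    ∃ (f : Z K a 1 →ₗ[MvPolynomial (Fin n) K] Tc K k n 1)
      (g : Tc K k n 1 →ₗ[MvPolynomial (Fin n) K] TI a K),
      Function.Injective f ∧ Function.Surjective g ∧ Function.Exact f g := by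
  classical
  have hval : ∀ x : Tc K k n 1, d K a x ∅ =
      ∑ j : Fin k, monomial (a j) (1 : K) * (x : T K k n) {j} := by
    intro x
    rw [d_apply]
    have : (∅ : Finset (Fin k))ᶜ = Finset.univ := Finset.compl_empty
    rw [this]
    refine Finset.sum_congr rfl (fun j _ => ?_)
    rw [insert_empty_eq, lc_singleton, lc_empty, tsub_zero]
    have : sg K j ∅ = 1 := by simp [sg, ps]
    rw [this]
  refine ⟨Submodule.inclusion inf_le_left,
    LinearMap.codRestrict (TI a K) ((LinearMap.proj ∅).comp
      ((d K a).comp (Tc K k n 1).subtype)) ?_, Submodule.inclusion_injective _, ?_, ?_⟩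
  · intro x
    show d K a x ∅ ∈ TI a K
    rw [hval]
    apply Submodule.sum_mem
    intro j _
    apply Ideal.mul_mem_right
    exact Ideal.subset_span ⟨j, rfl⟩
  · rintro ⟨p, hp⟩
    obtain ⟨c, hc⟩ := (Ideal.mem_span_range_iff_exists_fun).1 hp
    let f : T K k n := fun F => ∑ j, if F = {j} then c j else 0
    have hf : f ∈ Tc K k n 1 := by
      intro F hF
      apply Finset.sum_eq_zero
      intro j _
      rw [if_neg]
      rintro rfl
      exact hF (Finset.card_singleton j)
    refine ⟨⟨f, hf⟩, Subtype.ext ?_⟩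
    show d K a f ∅ = p
    rw [hval ⟨f, hf⟩, ← hc]
    refine Finset.sum_congr rfl (fun j _ => ?_)
    have : f {j} = c j := by
      show (∑ i, if ({j} : Finset (Fin k)) = {i} then c i else 0) = c j
      rw [Finset.sum_eq_single j]
      · rw [if_pos rfl]
      · intro i _ hij
        rw [if_neg]
        intro h
        exact hij (Finset.singleton_injective h).symm
      · intro h; exact absurd (Finset.mem_univ j) h
    show monomial (a j) (1 : K) * f {j} = c j * monomial (a j) 1
    rw [this, mul_comm]
  · intro x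
    constructor
    · intro h
      have h1 : d K a x ∅ = 0 := congrArg Subtype.val h
      refine ⟨⟨x, x.2, ?_⟩, rfl⟩
      show d K a x = 0
      funext G
      rcases Finset.eq_empty_or_nonempty G with rfl | hG
      · exact h1
      · exact d_mem (i := 0) x.2 G (Finset.card_pos.2 hG).ne'
    · rintro ⟨y, rfl⟩
      apply Subtype.ext
      show d K a (y : T K k n) ∅ = 0
      rw [LinearMap.mem_ker.1 y.2.2]
      rfl

/-- going up the chain: projective dimension of `S/I` from that of the cycles -/
theorem PD_up (m : ℕ) : ∀ i : ℕ, i ≠ 0 → ∀ t, PD (R := MvPolynomial (Fin n) K) (Z K a (i + m)) (t + 1) →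
    PD (R := MvPolynomial (Fin n) K) (Z K a i) (t + 1 + m) := by
  induction m with
  | zero => intro i _ t h; exact h
  | succ m ih =>
    intro i hi t h
    have h1 : PD (R := MvPolynomial (Fin n) K) (Z K a ((i + 1) + m)) (t + 1) := by
      have e : i + 1 + m = i + (m + 1) := by omega
      rw [e]; exact h
    have h2 := ih (i + 1) (by omega) t h1
    obtain ⟨f, g, hf, hg, hfg, _, _⟩ := Z_exact (K := K) (a := a) hi
    exact PD_right f g hf hg hfg h2 ((PD_projective (A := Tc K k n (i + 1))).mono (by omega))

theorem PD_up_quot (i t : ℕ) (h : PD (R := MvPolynomial (Fin n) K) (Z K a (i + 1)) (t + 1)) :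
    PD (R := MvPolynomial (Fin n) K) (MvPolynomial (Fin n) K ⧸ TI a K) (t + 3 + i) := by
  have h1 : PD (R := MvPolynomial (Fin n) K) (Z K a (1 + i)) (t + 1) := by
    rw [add_comm]; exact h
  have h2 := PD_up i 1 one_ne_zero t h1
  obtain ⟨f, g, hf, hg, hfg⟩ := Z1_exact (K := K) (a := a)
  have h3 := PD_right f g hf hg hfg h2 ((PD_projective (A := Tc K k n 1)).mono (by omega))
  have h4 := PD_right (TI a K).subtype (TI a K).mkQ (TI a K).injective_subtype
    (TI a K).mkQ_surjective (LinearMap.exact_subtype_mkQ _) h3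
    ((PD_projective (A := MvPolynomial (Fin n) K)).mono (by omega))
  exact h4.mono (by omega)

/-- going down the chain -/
theorem PD_down (m : ℕ) : ∀ i : ℕ, i ≠ 0 → ∀ t,
    PD (R := MvPolynomial (Fin n) K) (Z K a i) (t + 1 + m) →
    PD (R := MvPolynomial (Fin n) K) (Z K a (i + m)) (t + 1) := by
  induction m with
  | zero => intro i _ t h; exact h
  | succ m ih =>
    intro i hi t h
    obtain ⟨f, g, hf, hg, hfg, _, _⟩ := Z_exact (K := K) (a := a) hi
    have h2 : PD (R := MvPolynomial (Fin n) K) (Z K a (i + 1)) (t + 1 + m) :=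
      PD_left f g hf hg hfg ((PD_projective (A := Tc K k n (i + 1))).mono (by omega)) h
    have h3 := ih (i + 1) (by omega) t h2
    have e : i + 1 + m = i + (m + 1) := by omega
    rw [e] at h3; exact h3

theorem PD_down_quot (i t : ℕ)
    (h : PD (R := MvPolynomial (Fin n) K) (MvPolynomial (Fin n) K ⧸ TI a K) (t + 3 + i)) :
    PD (R := MvPolynomial (Fin n) K) (Z K a (i + 1)) (t + 1) := by
  have h1 : PD (R := MvPolynomial (Fin n) K) (TI a K) (t + 2 + i) := by
    apply PD_ideal _ (by omega)
    have e : t + 2 + i + 1 = t + 3 + i := by omega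
    rw [e]; exact h
  obtain ⟨f, g, hf, hg, hfg⟩ := Z1_exact (K := K) (a := a)
  have h2 : PD (R := MvPolynomial (Fin n) K) (Z K a 1) (t + 1 + i) := by
    refine PD_left f g hf hg hfg ((PD_projective (A := Tc K k n 1)).mono (by omega)) ?_
    have e : t + 1 + i + 1 = t + 2 + i := by omega
    rw [e]; exact h1
  have h3 := PD_down i 1 one_ne_zero t h2
  rw [add_comm] at h3; exact h3

end Pool.Agent.R716.SP.Taylor
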