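import Mathlib
import Pool.Agent.R716.SP.KM2

set_option autoImplicit false

namespace Pool.Agent.R716.SP

open MvPolynomial CategoryTheory RingTheory.Sequence
open Pool.Agent.H408R3.PDF Pool.Agent.Helper698.Dstab Pool.Agent.Helper698.Symb

/-- the six minimal non-faces on five vertices -/
def c5 (p : Fin 2 × Fin 3) : Finset (Fin 5) := {Fin.castLE (by omega) p.1, Fin.natAdd 2 p.2}

/-- the five intervals -/
def L5 : Finset (Finset (Fin 5) × Finset (Fin 5)) :=
  {(∅, {0, 1}), ({2}, {2, 3}), ({3}, {3, 4}), ({4}, {2, 4}), ({2, 3, 4}, {2, 3, 4})}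

theorem L5_sub : ∀ p ∈ L5, p.1 ⊆ p.2 := by decide +kernel

theorem L5_two : ∀ p ∈ L5, 2 ≤ p.2.card := by decide +kernel

theorem L5_down : ∀ p ∈ L5, ∀ c, ¬ c5 c ⊆ p.2 := by decide +kernel

theorem L5_cover : ∀ s : Finset (Fin 5), (∀ c, ¬ c5 c ⊆ s) → ∃ p ∈ L5, p.1 ⊆ s ∧ s ⊆ p.2 := by
  decide +kernel

theorem L5_disj : ∀ p ∈ L5, ∀ q ∈ L5, p ≠ q → ¬ (p.1 ∪ q.1 ⊆ p.2 ∩ q.2) := by
  decide +kernel

theorem c5_anti : ∀ c d, c5 c ⊆ c5 d → c = d := by decide +kernel

theorem c5_cut : ∀ s : Finset (Fin 5), (∃ c, c5 c ⊆ s) ↔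
    (∃ j ∈ s, (j : ℕ) < 2) ∧ (∃ j ∈ s, 2 ≤ (j : ℕ)) := by decide +kernel

variable (r : ℕ)

/-- the supports of the `6 + r` generators -/
def cs : (Fin 2 × Fin 3) ⊕ Fin r → Finset (Fin (5 + r))
  | Sum.inl c => (c5 c).map (Fin.castAddEmb r)
  | Sum.inr l => {Fin.natAdd 5 l}

/-- the trace on the first five variables -/
def tr (s : Finset (Fin (5 + r))) : Finset (Fin 5) :=
  Finset.univ.filter (fun j => Fin.castAdd r j ∈ s)

variable {r}

theorem map_sub_iff (F : Finset (Fin 5)) (s : Finset (Fin (5 + r))) :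
    F.map (Fin.castAddEmb r) ⊆ s ↔ F ⊆ tr r s := by
  constructor
  · intro h j hj
    simp only [tr, Finset.mem_filter, Finset.mem_univ, true_and]
    exact h (Finset.mem_map.2 ⟨j, hj, rfl⟩)
  · intro h j hj
    obtain ⟨i, hi, rfl⟩ := Finset.mem_map.1 hj
    have := h hi
    simp only [tr, Finset.mem_filter, Finset.mem_univ, true_and] at this
    exact this

theorem sub_map_iff (G : Finset (Fin 5)) (s : Finset (Fin (5 + r))) :
    s ⊆ G.map (Fin.castAddEmb r) ↔ tr r s ⊆ G ∧ ∀ l : Fin r, Fin.natAdd 5 l ∉ s := by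
  constructor
  · intro h
    constructor
    · intro j hj
      simp only [tr, Finset.mem_filter, Finset.mem_univ, true_and] at hj
      obtain ⟨i, hi, hij⟩ := Finset.mem_map.1 (h hj)
      have : i = j := Fin.castAdd_injective 5 r hij
      rw [← this]; exact hi
    · intro l hl
      obtain ⟨i, hi, hij⟩ := Finset.mem_map.1 (h hl)
      have := congrArg Fin.val hij
      simp at this
      omega
  · rintro ⟨h1, h2⟩ j hj
    induction j using Fin.addCases with
    | left i =>
      apply Finset.mem_map.2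
      refine ⟨i, h1 ?_, rfl⟩
      simp only [tr, Finset.mem_filter, Finset.mem_univ, true_and]
      exact hj
    | right l => exact absurd hj (h2 l)

theorem cs_inj_sub (c d : (Fin 2 × Fin 3) ⊕ Fin r) (h : cs r c ⊆ cs r d) : c = d := by
  rcases c with c | c <;> rcases d with d | d
  · congr 1
    apply c5_anti
    intro j hj
    obtain ⟨i, hi, hij⟩ := Finset.mem_map.1 (h (Finset.mem_map.2 ⟨j, hj, rfl⟩))
    have : i = j := Fin.castAdd_injective 5 r hij
    rw [← this]; exact hi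
  · exfalso
    have h1 : Fin.castAddEmb r (Fin.castLE (by omega) c.1) ∈ cs r (Sum.inl c) :=
      Finset.mem_map.2 ⟨_, by simp [c5], rfl⟩
    have h2 := Finset.mem_singleton.1 (h h1)
    have := congrArg Fin.val h2
    simp at this
    omega
  · exfalso
    have h1 : Fin.natAdd 5 c ∈ cs r (Sum.inr c) := Finset.mem_singleton_self _
    obtain ⟨i, hi, hij⟩ := Finset.mem_map.1 (h h1)
    have := congrArg Fin.val hij
    simp at this
    omega
  · have h1 : Fin.natAdd 5 c ∈ cs r (Sum.inr c) := Finset.mem_singleton_self _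
    have h2 := Finset.mem_singleton.1 (h h1)
    congr 1
    exact Fin.natAdd_injective r 5 h2

theorem cs_inj : Function.Injective (cs r) := fun c d h => cs_inj_sub c d h.subset

variable (r) in
/-- the exponents of the minimal generators -/
noncomputable def A1 : Finset (Fin (5 + r) →₀ ℕ) :=
  Finset.univ.map ⟨fun c => ind (cs r c), fun _ _ h => cs_inj (ind_inj h)⟩

theorem A1_card : (A1 r).card = 6 + r := by
  rw [A1, Finset.card_map, Finset.card_univ]
  simp

theorem A1_anti : IsAntichain (· ≤ ·) (A1 r : Set (Fin (5 + r) →₀ ℕ)) := by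
  intro a ha b hb hab hle
  obtain ⟨c, _, rfl⟩ := Finset.mem_map.1 (Finset.mem_coe.1 ha)
  obtain ⟨d, _, rfl⟩ := Finset.mem_map.1 (Finset.mem_coe.1 hb)
  apply hab
  have h1 : ind (cs r c) ≤ ind (cs r d) := hle
  rw [ind_le_iff, support_ind] at h1
  rw [cs_inj_sub c d h1]

variable {K : Type} [Field K]

theorem mem_A1_iff (a : Fin (5 + r) →₀ ℕ) :
    (∃ g ∈ A1 r, g ≤ a) ↔ ∃ c, cs r c ⊆ a.support := by
  constructor
  · rintro ⟨g, hg, hle⟩
    obtain ⟨c, _, rfl⟩ := Finset.mem_map.1 hg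
    exact ⟨c, (ind_le_iff _ _).1 hle⟩
  · rintro ⟨c, hc⟩
    exact ⟨ind (cs r c), Finset.mem_map.2 ⟨c, Finset.mem_univ _, rfl⟩, (ind_le_iff _ _).2 hc⟩

theorem not_mem_iff (a : Fin (5 + r) →₀ ℕ) :
    monomial a (1 : K) ∉ monIdeal K (A1 r) ↔ ¬ ∃ c, cs r c ⊆ a.support := by
  rw [monomial_mem_monIdeal, mem_A1_iff]

theorem P_iff (s : Finset (Fin (5 + r))) : (¬ ∃ c, cs r c ⊆ s) ↔
    (∀ c, ¬ c5 c ⊆ tr r s) ∧ ∀ l : Fin r, Fin.natAdd 5 l ∉ s := by
  constructor
  · intro h
    constructor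
    · intro c hc
      exact h ⟨Sum.inl c, (map_sub_iff _ _).2 hc⟩
    · intro l hl
      exact h ⟨Sum.inr l, Finset.singleton_subset_iff.2 hl⟩
  · rintro ⟨h1, h2⟩ ⟨c | l, hc⟩
    · exact h1 c ((map_sub_iff _ _).1 hc)
    · exact h2 l (Finset.singleton_subset_iff.1 hc)

theorem tr_mono {s t : Finset (Fin (5 + r))} (h : s ⊆ t) : tr r s ⊆ tr r t := by
  intro j hj
  simp only [tr, Finset.mem_filter, Finset.mem_univ, true_and] at hj ⊢
  exact h hj

theorem decomp1 : ∃ D, IsStanleyDecomposition (monIdeal K (A1 r)) D ∧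
    ∀ p ∈ D, 2 ≤ p.2.card := by
  classical
  refine decomp_of_partition _ (fun s => ¬ ∃ c, cs r c ⊆ s) (fun a => not_mem_iff a)
    (L5.image (fun p => (p.1.map (Fin.castAddEmb r), p.2.map (Fin.castAddEmb r)))) ?_ ?_ ?_ ?_ 2 ?_
  · intro p hp
    obtain ⟨q, hq, rfl⟩ := Finset.mem_image.1 hp
    exact Finset.map_subset_map.2 (L5_sub q hq)
  · intro p hp s _ hs
    obtain ⟨q, hq, rfl⟩ := Finset.mem_image.1 hp
    rw [sub_map_iff] at hs
    rw [P_iff]
    exact ⟨fun c hc => L5_down q hq c (hc.trans hs.1), hs.2⟩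
  · intro s hs
    rw [P_iff] at hs
    obtain ⟨p, hp, h1, h2⟩ := L5_cover (tr r s) hs.1
    exact ⟨_, Finset.mem_image.2 ⟨p, hp, rfl⟩, (map_sub_iff _ _).2 h1,
      (sub_map_iff _ _).2 ⟨h2, hs.2⟩⟩
  · intro p' hp' q' hq' s h1 h2 h3 h4
    obtain ⟨p, hp, rfl⟩ := Finset.mem_image.1 hp'
    obtain ⟨q, hq, rfl⟩ := Finset.mem_image.1 hq'
    rw [map_sub_iff] at h1 h3
    rw [sub_map_iff] at h2 h4
    by_contra hne
    have hpq : p ≠ q := fun h => hne (by rw [h])
    exact L5_disj p hp q hq hpq (Finset.union_subset (h1.trans (Finset.subset_inter h2.1 h4.1))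
      (h3.trans (Finset.subset_inter h2.1 h4.1)))
  · intro p hp
    obtain ⟨q, hq, rfl⟩ := Finset.mem_image.1 hp
    simpa using L5_two q hq

theorem sdepth1 : sdepth (monIdeal K (A1 r)) = 2 := by
  classical
  refine sdepth_eq (ind ((Finset.map (Fin.castAddEmb r) {0}))) ?_ 2 ?_ decomp1
  · rw [not_mem_iff, support_ind, P_iff]
    constructor
    · intro c hc
      have h1 : tr r (Finset.map (Fin.castAddEmb r) {0}) ⊆ {0} :=
        ((sub_map_iff {0} _).1 (Finset.Subset.refl _)).1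
      exact (by decide : ∀ c, ¬ c5 c ⊆ {0}) c (hc.trans h1)
    · exact ((sub_map_iff {0} _).1 (Finset.Subset.refl _)).2
  · intro Z hZ
    have hsub : Z ⊆ Finset.map (Fin.castAddEmb r) {0, 1} := by
      intro z hz
      have h1 := hZ z hz 1
      rw [not_mem_iff, P_iff] at h1
      have hz' : z ∈ (ind ((Finset.map (Fin.castAddEmb r) {0})) + Finsupp.single z 1).support := by
        rw [Finsupp.mem_support_iff, Finsupp.add_apply, Finsupp.single_eq_same]
        omega
      have h0 : Fin.castAdd r 0 ∈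
          (ind ((Finset.map (Fin.castAddEmb r) {0})) + Finsupp.single z 1).support := by
        rw [Finsupp.mem_support_iff, Finsupp.add_apply, ind_apply, if_pos]
        · omega
        · exact Finset.mem_map.2 ⟨0, by simp, rfl⟩
      induction z using Fin.addCases with
      | left i =>
        apply Finset.mem_map.2
        refine ⟨i, ?_, rfl⟩
        by_contra hi
        have h3 : (0 : Fin 5) ∈ tr r (ind ((Finset.map (Fin.castAddEmb r) {0})) +
            Finsupp.single (Fin.castAdd r i) 1).support := by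
          simp only [tr, Finset.mem_filter, Finset.mem_univ, true_and]
          exact h0
        have h4 : i ∈ tr r (ind ((Finset.map (Fin.castAddEmb r) {0})) +
            Finsupp.single (Fin.castAdd r i) 1).support := by
          simp only [tr, Finset.mem_filter, Finset.mem_univ, true_and]
          exact hz'
        obtain ⟨c, hc⟩ := (by decide : ∀ i : Fin 5, i ∉ ({0, 1} : Finset (Fin 5)) →
          ∃ c, c5 c ⊆ {0, i}) i hi
        apply h1.1 c
        intro j hj
        rcases Finset.mem_insert.1 (hc hj) with h | h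
        · rw [h]; exact h3
        · rw [Finset.mem_singleton.1 h]; exact h4
      | right l => exact absurd hz' (h1.2 l)
    refine (Finset.card_le_card hsub).trans ?_
    rw [Finset.card_map]
    decide

variable (r) in
/-- support of the first prime -/
def U1 : Finset (Fin (5 + r)) := Finset.univ.filter (fun j => (j : ℕ) < 2 ∨ 5 ≤ (j : ℕ))

variable (r) in
/-- support of the second prime -/
def U2 : Finset (Fin (5 + r)) := Finset.univ.filter (fun j => 2 ≤ (j : ℕ))

theorem monIdeal_eq : monIdeal K (A1 r) = MI K (US (U1 r)) ⊓ MI K (US (U2 r)) := by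
  ext f
  rw [Ideal.mem_inf, mem_MI (isUpperSet_US _), mem_MI (isUpperSet_US _), mem_monIdeal,
    ← forall₂_and]
  refine forall₂_congr (fun α _ => ?_)
  rw [mem_A1_iff]
  constructor
  · rintro ⟨c | l, hc⟩
    · have hc' : c5 c ⊆ tr r α.support := (map_sub_iff _ _).1 hc
      obtain ⟨⟨i, hi, hi2⟩, ⟨j, hj, hj2⟩⟩ := (c5_cut (tr r α.support)).1 ⟨c, hc'⟩
      simp only [tr, Finset.mem_filter, Finset.mem_univ, true_and, Finsupp.mem_support_iff]
        at hi hj
      exact ⟨⟨Fin.castAdd r i, by simp [U1]; omega, hi⟩, ⟨Fin.castAdd r j, by simp [U2, hj2], hj⟩⟩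
    · have hc' := Finsupp.mem_support_iff.1 (Finset.singleton_subset_iff.1 hc)
      exact ⟨⟨Fin.natAdd 5 l, by simp [U1], hc'⟩, ⟨Fin.natAdd 5 l, by simp [U2]; omega, hc'⟩⟩
  · rintro ⟨⟨i, hi, hi2⟩, ⟨j, hj, hj2⟩⟩
    simp only [U1, U2, Finset.mem_filter, Finset.mem_univ, true_and] at hi hj
    by_cases hz : ∃ l : Fin r, Fin.natAdd 5 l ∈ α.support
    · obtain ⟨l, hl⟩ := hz
      exact ⟨Sum.inr l, Finset.singleton_subset_iff.2 hl⟩
    · push Not at hz
      have key : ∀ k : Fin (5 + r), α k ≠ 0 → ∃ k' : Fin 5, k = Fin.castAdd r k' := by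
        intro k hk
        induction k using Fin.addCases with
        | left k => exact ⟨k, rfl⟩
        | right l => exact absurd (Finsupp.mem_support_iff.2 hk) (hz l)
      obtain ⟨i, rfl⟩ := key i hi2
      obtain ⟨j, rfl⟩ := key j hj2
      have hi' : (i : ℕ) < 2 := by
        rcases hi with h | h
        · simpa using h
        · have := i.2
          simp at h
          omega
      have hj' : 2 ≤ (j : ℕ) := by simpa using hj
      obtain ⟨c, hc⟩ := (c5_cut (tr r α.support)).2 ⟨⟨i, by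
        simpa only [tr, Finset.mem_filter, Finset.mem_univ, true_and, Finsupp.mem_support_iff]
          using hi2, hi'⟩, ⟨j, by
        simpa only [tr, Finset.mem_filter, Finset.mem_univ, true_and, Finsupp.mem_support_iff]
          using hj2, hj'⟩⟩
      exact ⟨Sum.inl c, (map_sub_iff _ _).2 hc⟩

theorem sup_eq : MI K (US (U1 r)) ⊔ MI K (US (U2 r)) =
    MI K (US (Finset.univ : Finset (Fin (5 + r)))) := by
  apply le_antisymm
  · apply sup_le
    · apply MI_mono
      rintro α ⟨j, _, hj⟩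
      exact ⟨j, Finset.mem_univ j, hj⟩
    · apply MI_mono
      rintro α ⟨j, _, hj⟩
      exact ⟨j, Finset.mem_univ j, hj⟩
  · rw [MI, Ideal.span_le]
    rintro _ ⟨α, ⟨j, _, hj⟩, rfl⟩
    by_cases h : (j : ℕ) < 2
    · apply Ideal.mem_sup_left
      exact monomial_mem_MI (show α ∈ US (U1 r) from ⟨j, by simp [U1]; omega, hj⟩) 1
    · apply Ideal.mem_sup_right
      exact monomial_mem_MI (show α ∈ US (U2 r) from ⟨j, by simp [U2]; omega, hj⟩) 1

theorem PD_U {U : Finset (Fin (5 + r))} {j : Fin (5 + r)} (hj : j ∉ U) :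
    PD (R := MvPolynomial (Fin (5 + r)) K) (MvPolynomial (Fin (5 + r)) K ⧸ MI K (US U)) (5 + r) := by
  apply (PD_US U).mono
  have : U.card < (Finset.univ : Finset (Fin (5 + r))).card :=
    Finset.card_lt_card (Finset.ssubset_univ_iff.2 (fun h => hj (h ▸ Finset.mem_univ j)))
  rw [Finset.card_univ, Fintype.card_fin] at this
  omega

theorem PD_mid1 : PD (R := MvPolynomial (Fin (5 + r)) K)
    ((MvPolynomial (Fin (5 + r)) K ⧸ MI K (US (U1 r))) ×
      (MvPolynomial (Fin (5 + r)) K ⧸ MI K (US (U2 r)))) (5 + r) :=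
  PD_prod (PD_U (j := Fin.castAdd r 2) (by simp [U1])) (PD_U (j := Fin.castAdd r 0) (by simp [U2]))

theorem pd1_upper : PD (R := MvPolynomial (Fin (5 + r)) K)
    (MvPolynomial (Fin (5 + r)) K ⧸ monIdeal K (A1 r)) (5 + r) := by
  rw [monIdeal_eq]
  obtain ⟨f, g, h1, h2, h3⟩ := inter_exact (MI K (US (U1 r))) (MI K (US (U2 r)))
  refine PD_left f g h1 h2 h3 PD_mid1 ?_
  rw [sup_eq]
  have := PD_US (K := K) (Finset.univ : Finset (Fin (5 + r)))
  rwa [Finset.card_univ, Fintype.card_fin] at this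

theorem pd1_lower : ¬ PD (R := MvPolynomial (Fin (5 + r)) K)
    (MvPolynomial (Fin (5 + r)) K ⧸ monIdeal K (A1 r)) (4 + r) := by
  intro h
  rw [monIdeal_eq] at h
  obtain ⟨f, g, h1, h2, h3⟩ := inter_exact (MI K (US (U1 r))) (MI K (US (U2 r)))
  have h4 := PD_right f g h1 h2 h3 h (PD_mid1.mono (by omega))
  rw [sup_eq] at h4
  exact not_PD_residue (h4.mono (by omega))

theorem pdim1 : pdim (monIdeal K (A1 r)) = ((4 + r : ℕ) : WithBot ℕ∞) := by
  apply le_antisymm
  · rw [pdim, projectiveDimension_le_iff]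
    have h := pd1_upper (K := K) (r := r)
    have : 4 + r + 1 = 5 + r := by omega
    show HasProjectiveDimensionLT _ (4 + r + 1)
    rw [this]
    exact h
  · rw [pdim, projectiveDimension_ge_iff]
    exact pd1_lower

end Pool.Agent.R716.SP
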