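import Mathlib
import Pool.Agent.R716.SP.Chain

set_option autoImplicit false

namespace Pool.Agent.R716.SP

open MvPolynomial CategoryTheory
open Pool.Agent.H408R3.PDF
open Taylor

/-- the masks of the six lines of the `3 × 3` grid -/
def lm : List ℕ := [7, 56, 448, 73, 146, 292]

/-- the intervals -/
def iv9 : List (ℕ × ℕ) := [(90, 94), (70, 110), (67, 115), (101, 117), (22, 118), (24, 157),
  (8, 171), (5, 173), (6, 174), (20, 181), (198, 206), (69, 213), (88, 220), (194, 227),
  (229, 229), (230, 230), (72, 234), (4, 236), (64, 241), (84, 244), (26, 283), (280, 285),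
  (30, 286), (296, 299), (0, 307), (264, 334), (323, 339), (260, 341), (262, 342), (344, 346),
  (348, 348), (355, 355), (360, 362), (320, 369), (66, 370), (267, 395), (265, 397), (390, 398),
  (388, 405), (409, 409), (392, 412), (130, 419), (424, 425), (394, 426), (128, 433),
  (238, 238), (245, 245), (350, 350), (371, 371), (413, 413), (427, 427)]

/-- the six lines (rows, then columns) -/
def ln (j : Fin 6) : Finset (Fin 9) := unmask 9 (lm.getD j 0)

theorem chk_iv : ∀ y < 2 ^ 9, up lm y = !(iv9.any (inside y)) := by decide +kernel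

theorem chk_iv2a : ∀ p ∈ iv9, p.1 &&& p.2 = p.1 ∧ p.1 < 2 ^ 9 ∧ p.2 < 2 ^ 9 := by decide +kernel

theorem chk_iv2 : ∀ p ∈ iv9, ∀ q ∈ iv9, p = q ∨
      (p.1 ||| q.1) &&& (p.2 &&& q.2) ≠ (p.1 ||| q.1) := by decide +kernel

theorem chk_card : ∀ p ∈ iv9, 5 ≤ (unmask 9 p.2).card := by decide +kernel

theorem ln_inj_sub : ∀ i j : Fin 6, ln i ⊆ ln j → i = j := by decide +kernel

theorem ln_inj : Function.Injective ln := fun i j h => ln_inj_sub i j h.subset

/-- the exponents of the six generators -/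
noncomputable def a2 (j : Fin 6) : Fin 9 →₀ ℕ := ind (ln j)

/-- the set of exponents of the generators -/
noncomputable def A2 : Finset (Fin 9 →₀ ℕ) :=
  Finset.univ.map ⟨a2, fun _ _ h => ln_inj (ind_inj h)⟩

theorem A2_card : A2.card = 6 := by
  rw [A2, Finset.card_map, Finset.card_univ]
  simp

theorem A2_anti : IsAntichain (· ≤ ·) (A2 : Set (Fin 9 →₀ ℕ)) := by
  intro a ha b hb hab hle
  obtain ⟨c, _, rfl⟩ := Finset.mem_map.1 (Finset.mem_coe.1 ha)
  obtain ⟨d, _, rfl⟩ := Finset.mem_map.1 (Finset.mem_coe.1 hb)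
  apply hab
  have h1 : ind (ln c) ≤ ind (ln d) := hle
  rw [ind_le_iff, support_ind] at h1
  rw [ln_inj_sub c d h1]

variable {K : Type} [Field K]

theorem monIdeal_A2 : monIdeal K A2 = TI a2 K := by
  rw [monIdeal, TI]
  congr 1
  ext p
  simp [A2, Set.mem_image]

theorem mem_A2_iff (a : Fin 9 →₀ ℕ) : (∃ g ∈ A2, g ≤ a) ↔ ∃ m ∈ lm, unmask 9 m ⊆ a.support := by
  constructor
  · rintro ⟨g, hg, hle⟩
    obtain ⟨c, _, rfl⟩ := Finset.mem_map.1 hg
    refine ⟨lm.getD c 0, ?_, (ind_le_iff _ _).1 hle⟩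
    exact (by decide : ∀ c : Fin 6, lm.getD c 0 ∈ lm) c
  · rintro ⟨m, hm, h⟩
    obtain ⟨c, hc⟩ := (by decide : ∀ m ∈ lm, ∃ c : Fin 6, lm.getD c 0 = m) m hm
    refine ⟨a2 c, Finset.mem_map.2 ⟨c, Finset.mem_univ _, rfl⟩, (ind_le_iff _ _).2 ?_⟩
    rw [ln, hc]; exact h

theorem not_mem_iff2 (a : Fin 9 →₀ ℕ) :
    monomial a (1 : K) ∉ monIdeal K A2 ↔ ¬ ∃ m ∈ lm, unmask 9 m ⊆ a.support := by
  rw [monomial_mem_monIdeal, mem_A2_iff]

theorem decomp2 : ∃ D, IsStanleyDecomposition (monIdeal K A2) D ∧ ∀ p ∈ D, 5 ≤ p.2.card :=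
  decomp_of_masks _ lm iv9 (fun a => not_mem_iff2 a) (by decide) chk_iv2a chk_iv chk_iv2 5 chk_card

theorem chk_u : ¬ ∃ m ∈ lm, unmask 9 m ⊆ ({2, 3, 4, 6, 7} : Finset (Fin 9)) := by decide +kernel

theorem chk_u2 : ∀ z : Fin 9, z ∉ ({2, 3, 4, 6, 7} : Finset (Fin 9)) →
    ∃ m ∈ lm, unmask 9 m ⊆ insert z ({2, 3, 4, 6, 7} : Finset (Fin 9)) := by decide +kernel

theorem sdepth2 : sdepth (monIdeal K A2) = 5 := by
  refine sdepth_eq (ind {2, 3, 4, 6, 7}) ?_ 5 ?_ decomp2
  · rw [not_mem_iff2, support_ind]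
    exact chk_u
  · intro Z hZ
    have hsub : Z ⊆ ({2, 3, 4, 6, 7} : Finset (Fin 9)) := by
      intro z hz
      by_contra hzn
      have h1 := hZ z hz 1
      rw [not_mem_iff2] at h1
      apply h1
      obtain ⟨m, hm, h⟩ := chk_u2 z hzn
      refine ⟨m, hm, h.trans ?_⟩
      intro j hj
      rw [Finsupp.mem_support_iff, Finsupp.add_apply]
      rcases Finset.mem_insert.1 hj with rfl | hj
      · rw [Finsupp.single_eq_same]; omega
      · rw [ind_apply, if_pos hj]; omega
    exact (Finset.card_le_card hsub).trans (by decide)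

/-! ### the lcm lattice -/

/-- the cells covered by a set of lines -/
def cov (F : Finset (Fin 6)) : Finset (Fin 9) := F.biUnion ln

theorem lc_eq (F : Finset (Fin 6)) : lc a2 F = ind (cov F) := by
  apply le_antisymm
  · rw [lc_le]
    intro j hj
    rw [a2, ind_le_iff, support_ind]
    exact Finset.subset_biUnion_of_mem ln hj
  · rw [ind_le_iff]
    intro x hx
    obtain ⟨j, hj, hxj⟩ := Finset.mem_biUnion.1 hx
    have h1 : a2 j ≤ lc a2 F := lc_le.1 le_rfl j hj
    rw [a2, ind_le_iff] at h1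
    exact h1 hxj

theorem lc_sub_eq_zero_iff (F G : Finset (Fin 6)) : lc a2 F - lc a2 G = 0 ↔ cov F ⊆ cov G := by
  rw [tsub_eq_zero_iff_le, lc_eq, lc_eq, ind_le_iff, support_ind]

/-- the top set minus one line -/
def E (v : Fin 6) : Finset (Fin 6) := Finset.univ.erase v

theorem cov_E : ∀ v : Fin 6, cov Finset.univ ⊆ cov (E v) := by decide +kernel

/-- integer sign -/
def sz (j : Fin 6) (G : Finset (Fin 6)) : ℤ := (-1) ^ ps j G

theorem sz_cast (j : Fin 6) (G : Finset (Fin 6)) : ((sz j G : ℤ) : K) = sg K j G := by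
  simp [sz, sg]

/-- the integer version of the chain `u` -/
def uz (F : Finset (Fin 6)) : ℤ :=
  if F = E 3 then sz 3 (E 3) else if F = E 4 then sz 4 (E 4) else if F = E 5 then sz 5 (E 5) else 0

theorem chk_w : ∀ G : Finset (Fin 6),
    ∑ j ∈ Gᶜ, (if cov (insert j G) ⊆ cov G then sz j G * uz (insert j G) else 0) = 0 := by
  decide +kernel

/-- the chain `u` -/
noncomputable def u (K : Type) [Field K] : T K 6 9 := fun F => C ((uz F : ℤ) : K)

theorem uz_card : ∀ F : Finset (Fin 6), F.card ≠ 5 → uz F = 0 := by decide +kernel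

theorem u_mem : u K ∈ Tc K 6 9 5 := by
  intro F hF
  rw [u, uz_card F hF]
  simp

theorem kappa_w (G : Finset (Fin 6)) : constantCoeff (d K a2 (u K) G) = 0 := by
  have h1 : constantCoeff (d K a2 (u K) G) = ∑ j ∈ Gᶜ,
      (((if cov (insert j G) ⊆ cov G then sz j G * uz (insert j G) else 0 : ℤ)) : K) := by
    rw [d_apply, map_sum]
    refine Finset.sum_congr rfl (fun j _ => ?_)
    rw [map_mul, constantCoeff_monomial, u, constantCoeff_C, ← sz_cast]
    by_cases h : cov (insert j G) ⊆ cov G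
    · rw [if_pos ((lc_sub_eq_zero_iff _ _).2 h), if_pos h]
      push_cast; ring
    · rw [if_neg (fun h' => h ((lc_sub_eq_zero_iff _ _).1 h')), if_neg h, zero_mul]
      simp
  rw [h1, ← Int.cast_sum, chk_w G, Int.cast_zero]

theorem E_compl (v : Fin 6) : (E v)ᶜ = {v} := by
  ext x
  simp [E]

theorem insert_E (v : Fin 6) : insert v (E v) = Finset.univ := Finset.insert_erase (Finset.mem_univ v)

theorem d_E (g : T K 6 9) (v : Fin 6) :
    d K a2 g (E v) = C (sg K v (E v)) * g Finset.univ := by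
  rw [d_apply, E_compl, Finset.sum_singleton, insert_E,
    (lc_sub_eq_zero_iff _ _).2 (cov_E v)]
  rfl

theorem lower2 : ¬ PD (R := MvPolynomial (Fin 9) K) (MvPolynomial (Fin 9) K ⧸ TI a2 K) 5 := by
  classical
  intro h
  have h3 : PD (R := MvPolynomial (Fin 9) K) (Z K a2 3) 1 := PD_down_quot 2 0 h
  have hproj : Module.Projective (MvPolynomial (Fin 9) K) (Z K a2 3) := projective_of_PD h3
  obtain ⟨f, g, _, hg, hfg, _, hgv⟩ := Z_exact (K := K) (a := a2) (i := 3) (by norm_num)
  obtain ⟨s, hs⟩ := Module.projective_lifting_property g LinearMap.id hg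
  have hs' : ∀ z, g (s z) = z := fun z => LinearMap.congr_fun hs z
  -- the retraction
  have hret : ∀ x : Tc K 6 9 4, ∃ t ∈ Tc K 6 9 5, d K a2 t = (x : T K 6 9) - s (g x) := by
    intro x
    apply exact_pos (by norm_num) _ (Submodule.sub_mem _ x.2 (s (g x)).2)
    have h4 : g (x - s (g x)) = 0 := by rw [map_sub, hs', sub_self]
    have h5 := hgv (x - s (g x))
    rw [h4] at h5
    exact h5.symm
  -- basis elements
  let e : Finset (Fin 6) → Tc K 6 9 4 := fun G =>
    ⟨fun F => if F.card = 4 ∧ F = G then 1 else 0, fun F hF => if_neg (fun h => hF h.1)⟩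
  choose t ht1 ht2 using fun G => hret (e G)
  set w : T K 6 9 := d K a2 (u K) with hw
  have hw4 : w ∈ Tc K 6 9 4 := d_mem u_mem
  have hwe : (⟨w, hw4⟩ : Tc K 6 9 4) = ∑ G, w G • e G := by
    apply Subtype.ext
    funext F
    have h6 : ((∑ G, w G • e G : Tc K 6 9 4) : T K 6 9) F =
        ∑ G, w G * (if F.card = 4 ∧ F = G then 1 else 0) := by
      rw [Submodule.coe_sum, Finset.sum_apply]
      rfl
    rw [h6]
    by_cases hF : F.card = 4
    · rw [Finset.sum_eq_single F]
      · rw [if_pos ⟨hF, rfl⟩, mul_one]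
      · intro G _ hG
        rw [if_neg (fun h => hG h.2.symm), mul_zero]
      · intro h; exact absurd (Finset.mem_univ F) h
    · rw [Finset.sum_eq_zero]
      · exact hw4 F hF
      · intro G _
        rw [if_neg (fun h => hF h.1), mul_zero]
  have hgw : g ⟨w, hw4⟩ = 0 := by
    apply Subtype.ext
    rw [hgv]
    exact d_d _
  have hsum : d K a2 (∑ G, w G • t G) = w := by
    rw [map_sum]
    have h7 : ∀ G, d K a2 (w G • t G) = w G • ((e G : T K 6 9) - s (g (e G))) := by
      intro G
      rw [map_smul, ht2]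
    rw [Finset.sum_congr rfl (fun G _ => h7 G)]
    have h8 : ∑ G, w G • ((e G : T K 6 9) - s (g (e G))) =
        (((⟨w, hw4⟩ : Tc K 6 9 4) - s (g ⟨w, hw4⟩) : Tc K 6 9 4) : T K 6 9) := by
      rw [hwe, map_sum, map_sum, ← Finset.sum_sub_distrib, Submodule.coe_sum]
      refine Finset.sum_congr rfl (fun G _ => ?_)
      rw [map_smul, map_smul]
      show w G • ((e G : T K 6 9) - (s (g (e G)) : T K 6 9)) =
        w G • (e G : T K 6 9) - w G • (s (g (e G)) : T K 6 9)
      rw [smul_sub]
    rw [h8, hgw, map_zero, sub_zero]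
  have hmem : u K - ∑ G, w G • t G ∈ Tc K 6 9 5 :=
    Submodule.sub_mem _ u_mem (Submodule.sum_mem _ (fun G _ => Submodule.smul_mem _ _ (ht1 G)))
  obtain ⟨q, _, hq⟩ := exact_pos (K := K) (a := a2) (i := 5) (by norm_num) _ hmem
    (by rw [map_sub, hsum, ← hw, sub_self])
  have key : ∀ v, constantCoeff (u K (E v)) = sg K v (E v) * constantCoeff (q Finset.univ) := by
    intro v
    have h9 : d K a2 q (E v) = (u K - ∑ G, w G • t G) (E v) := by rw [hq]
    rw [d_E, Pi.sub_apply, Finset.sum_apply] at h9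
    have h10 := congrArg constantCoeff h9
    rw [map_mul, constantCoeff_C, map_sub, map_sum, Finset.sum_eq_zero, sub_zero] at h10
    · exact h10.symm
    · intro G _
      rw [Pi.smul_apply, smul_eq_mul, map_mul, hw, kappa_w, zero_mul]
  have k0 := key 0
  have k3 := key 3
  have u0 : constantCoeff (u K (E 0)) = 0 := by
    rw [u, constantCoeff_C, (by decide +kernel : uz (E 0) = 0), Int.cast_zero]
  have u3 : constantCoeff (u K (E 3)) = sg K 3 (E 3) := by
    rw [u, constantCoeff_C, ← sz_cast, uz, if_pos rfl]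
  rw [u0] at k0
  rw [u3] at k3
  have hk : constantCoeff (q Finset.univ) = 0 := by
    rcases mul_eq_zero.1 k0.symm with h | h
    · exact absurd h (sg_ne_zero _ _)
    · exact h
  rw [hk, mul_zero] at k3
  exact sg_ne_zero _ _ k3

theorem Z4_projective : Module.Projective (MvPolynomial (Fin 9) K) (Z K a2 4) := by
  classical
  obtain ⟨f, g, _, hg, hfg, _, hgv⟩ := Z_exact (K := K) (a := a2) (i := 4) (by norm_num)
  -- section
  have key : ∀ x : Tc K 6 9 5, g x = 0 → (x : T K 6 9) (E 0) = 0 → x = 0 := by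
    intro x hx h0
    have hx' : d K a2 x = 0 := by rw [← hgv, hx]; rfl
    obtain ⟨q, hq6, hq⟩ := exact_pos (K := K) (a := a2) (i := 5) (by norm_num) _ x.2 hx'
    have h1 : C (sg K 0 (E 0)) * q Finset.univ = 0 := by rw [← d_E, hq, h0]
    have h2 : q Finset.univ = 0 := by
      rcases mul_eq_zero.1 h1 with h | h
      · exfalso
        rw [← C_0] at h
        exact sg_ne_zero _ _ (C_injective _ _ h)
      · exact h
    have h3 : q = 0 := by
      funext F
      by_cases hF : F.card = 6
      · have : F = Finset.univ := Finset.eq_univ_of_card F (by simpa using hF)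
        rw [this, h2]; rfl
      · exact hq6 F hF
    apply Subtype.ext
    rw [← hq, h3, map_zero]; rfl
  let N : Submodule (MvPolynomial (Fin 9) K) (Tc K 6 9 5) :=
    LinearMap.ker ((LinearMap.proj (E 0)).comp (Tc K 6 9 5).subtype)
  have hbij : Function.Bijective (g.comp N.subtype) := by
    constructor
    · rintro ⟨x, hx⟩ ⟨y, hy⟩ h
      have h' : g x = g y := h
      apply Subtype.ext
      apply sub_eq_zero.1
      apply key
      · rw [map_sub, h', sub_self]
      · exact N.sub_mem hx hy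
    · intro z
      obtain ⟨x, hx⟩ := hg z
      let q : T K 6 9 := fun F => if F = Finset.univ then
        C (sg K 0 (E 0)) * (x : T K 6 9) (E 0) else 0
      have hq : q ∈ Tc K 6 9 6 := by
        intro F hF
        apply if_neg
        rintro rfl
        simp at hF
      have hx' : (x : T K 6 9) - d K a2 q ∈ Tc K 6 9 5 := Submodule.sub_mem _ x.2 (d_mem hq)
      refine ⟨⟨⟨(x : T K 6 9) - d K a2 q, hx'⟩, ?_⟩, ?_⟩
      · show ((x : T K 6 9) - d K a2 q) (E 0) = 0
        rw [Pi.sub_apply, d_E]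
        show (x : T K 6 9) (E 0) - C (sg K 0 (E 0)) *
          (if (Finset.univ : Finset (Fin 6)) = Finset.univ then
            C (sg K 0 (E 0)) * (x : T K 6 9) (E 0) else 0) = 0
        rw [if_pos rfl, ← mul_assoc, ← C_mul, sg_mul_self, C_1, one_mul, sub_self]
      · apply Subtype.ext
        show (g ⟨(x : T K 6 9) - d K a2 q, hx'⟩ : T K 6 9) = z
        rw [hgv, ← hx, hgv]
        show d K a2 ((x : T K 6 9) - d K a2 q) = d K a2 x
        rw [map_sub, d_d, sub_zero]
  have hN : Module.Projective (MvPolynomial (Fin 9) K) N := by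
    let r : Tc K 6 9 5 →ₗ[MvPolynomial (Fin 9) K] N :=
      { toFun := fun x => ⟨⟨fun F => if F = E 0 then 0 else (x : T K 6 9) F, fun F hF => by
          show (if F = E 0 then 0 else (x : T K 6 9) F) = 0
          rw [x.2 F hF, ite_self]⟩, by
            show (if E 0 = E 0 then 0 else (x : T K 6 9) (E 0)) = 0
            exact if_pos rfl⟩
        map_add' := fun x y => by
          apply Subtype.ext; apply Subtype.ext
          funext F
          show (if F = E 0 then 0 else ((x : T K 6 9) F + (y : T K 6 9) F)) =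
            (if F = E 0 then 0 else (x : T K 6 9) F) + (if F = E 0 then 0 else (y : T K 6 9) F)
          split_ifs <;> simp
        map_smul' := fun p x => by
          apply Subtype.ext; apply Subtype.ext
          funext F
          show (if F = E 0 then 0 else (p * (x : T K 6 9) F)) =
            p * (if F = E 0 then 0 else (x : T K 6 9) F)
          split_ifs <;> simp }
    refine Module.Projective.of_split N.subtype r ?_
    apply LinearMap.ext
    rintro ⟨x, hx⟩
    apply Subtype.ext; apply Subtype.ext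
    funext F
    show (if F = E 0 then 0 else (x : T K 6 9) F) = (x : T K 6 9) F
    split_ifs with h
    · rw [h]; exact (show (x : T K 6 9) (E 0) = 0 from hx).symm
    · rfl
  exact Module.Projective.of_equiv (LinearEquiv.ofBijective _ hbij)

theorem upper2 : PD (R := MvPolynomial (Fin 9) K) (MvPolynomial (Fin 9) K ⧸ TI a2 K) 6 := by
  have h := Z4_projective (K := K)
  exact PD_up_quot 3 0 (PD_projective (A := Z K a2 4))

theorem pdim2 : pdim (monIdeal K A2) = ((5 : ℕ) : WithBot ℕ∞) := by
  rw [monIdeal_A2]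
  apply le_antisymm
  · rw [pdim, projectiveDimension_le_iff]
    exact upper2
  · rw [pdim, projectiveDimension_ge_iff]
    exact lower2

end Pool.Agent.R716.SP
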